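import Pool.Agent.AME.Hyp

/-!
# General parts theorem: most labels are admissible

Adaptation of `AMA/AdmB.lean` (additional loss `η N` for the extra condition `Ex`).
-/

set_option autoImplicit false
set_option linter.unusedSectionVars false

namespace Pool.Agent.AME

open Finset
open Pool.Agent.MP9a04dc (deg codeg Good)
open Pool.Agent.AMA (Frm val HE HV lb)

variable {P K : Type} [Fintype P] [DecidableEq P] [DecidableEq K] {Md : Type} [Fintype Md] {s : ℕ}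
  {σ : GSys P K s} {om : Md → ℝ} {wt : K → Md → ℕ → ℝ} {R p N B : ℕ} {c1 C1 γ η : ℝ}

private lemma AdmB_cf_lt (H : GOKH σ om wt R p N B c1 C1 γ η) (Q : P)
    (u : Fin 3 × Frm s) (hu : u ∈ σ.cf Q) : u.2.2 < p := by
  unfold GSys.cf at hu
  simp only [Finset.mem_union, Finset.mem_image] at hu
  rcases hu with (⟨i, _, rfl⟩ | ⟨φ, hφ, rfl⟩) | ⟨β, hβ, rfl⟩
  · exact lt_of_le_of_lt (Nat.zero_le _) H.Rp
  · exact H.S_lt Q φ hφ
  · unfold GSys.Bf at hβ
    rw [Finset.mem_filter, Finset.mem_biUnion] at hβ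
    obtain ⟨⟨g, hg, hb⟩, _⟩ := hβ
    exact H.S_lt Q (insert g.1 β.1, β.2) (H.G_S Q g hg β hb)

theorem sum_not_adm_le (H : GOKH σ om wt R p N B c1 C1 γ η) (hN : 0 < c1 * N) :
    ∑ Q, Pr om wt R (σ.kd Q) (fun x => ¬ σ.Adm p Q x) ≤ 16 * s ^ 2 / c1 + B + η * N := by
  classical
  have hN0 : (0 : ℝ) < N := by
    rcases Nat.eq_zero_or_pos N with h0 | h0
    · simp [h0] at hN
    · exact_mod_cast h0
  have hc1 : 0 < c1 := by
    by_contra hc
    exact absurd (mul_nonpos_of_nonpos_of_nonneg (not_lt.1 hc) hN0.le) (not_le.2 hN)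
  have hQ : ∀ Q, Pr om wt R (σ.kd Q) (fun x => ¬ σ.Adm p Q x) ≤
      16 * (s : ℝ) ^ 2 * (1 / (c1 * N)) + Pr om wt R (σ.kd Q) (fun x => ¬ σ.Ex Q x) := by
    intro Q
    set F := ((σ.cf Q) ×ˢ (σ.cf Q)).filter (fun u => u.1.2.1 ≠ u.2.2.1) with hF
    have h1 : Pr om wt R (σ.kd Q) (fun x => ¬ σ.Adm p Q x) ≤
        Pr om wt R (σ.kd Q) (fun x =>
          (∃ u ∈ F, (val u.1.2 x + 0) % p = (val u.2.2 x + 0) % p) ∨ ¬ σ.Ex Q x) := by
      refine Pr_mono H.law (fun x _ hx => ?_)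
      by_cases hE : σ.Ex Q x
      · left
        unfold GSys.Adm at hx
        have hx' : ¬ ∀ u ∈ σ.cf Q, ∀ v ∈ σ.cf Q, u.1 = v.1 → val u.2 x % p = val v.2 x % p →
            u = v := fun h => hx ⟨h, hE⟩
        push Not at hx'
        obtain ⟨u, hu, v, hv, huv, hval, hne⟩ := hx'
        refine ⟨(u, v), ?_, by simpa using hval⟩
        rw [hF, Finset.mem_filter, Finset.mem_product]
        refine ⟨⟨hu, hv⟩, fun hs => hne ?_⟩
        have h2 : u.2.2 = v.2.2 := by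
          unfold Pool.Agent.AMA.val at hval
          simp only at hs
          rw [hs] at hval
          have h3 : u.2.2 ≡ v.2.2 [MOD p] := Nat.ModEq.add_right_cancel' _ hval
          exact Nat.ModEq.eq_of_lt_of_lt h3 (AdmB_cf_lt H Q u hu) (AdmB_cf_lt H Q v hv)
        exact Prod.ext huv (Prod.ext hs h2)
      · exact Or.inr hE
    have h1' := Pr_or_le (o := σ.kd Q) H.law
      (fun x => ∃ u ∈ F, (val u.1.2 x + 0) % p = (val u.2.2 x + 0) % p) (fun x => ¬ σ.Ex Q x)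
    have h2 : Pr om wt R (σ.kd Q)
        (fun x => ∃ u ∈ F, (val u.1.2 x + 0) % p = (val u.2.2 x + 0) % p) ≤
        ∑ u ∈ F, Pr om wt R (σ.kd Q) (fun x => (val u.1.2 x + 0) % p = (val u.2.2 x + 0) % p) :=
      Pr_exists_le H.law F (fun u x => (val u.1.2 x + 0) % p = (val u.2.2 x + 0) % p)
    have h3 : ∑ u ∈ F, Pr om wt R (σ.kd Q)
        (fun x => (val u.1.2 x + 0) % p = (val u.2.2 x + 0) % p) ≤
        ∑ u ∈ F, (1 / (c1 * N)) := by
      refine Finset.sum_le_sum (fun u hu => ?_)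
      rw [hF, Finset.mem_filter, Finset.mem_product] at hu
      exact Pr_coinc_mod_le H.law H.sRp H.Rp u.1.2 u.2.2 (cf_act H Q u.1 hu.1.1).2
        (cf_act H Q u.2 hu.1.2).2 hu.2 0 0
    have h4 : (F.card : ℝ) ≤ 16 * (s : ℝ) ^ 2 := by
      have h5 : F.card ≤ (4 * s) * (4 * s) := by
        refine (Finset.card_filter_le _ _).trans ?_
        rw [Finset.card_product]
        exact Nat.mul_le_mul (card_cf_le H Q) (card_cf_le H Q)
      have h6 : (F.card : ℝ) ≤ ((4 * s) * (4 * s) : ℕ) := by exact_mod_cast h5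
      refine h6.trans (le_of_eq ?_)
      push_cast
      ring
    have h5 : ∑ u ∈ F, (1 / (c1 * N)) ≤ 16 * (s : ℝ) ^ 2 * (1 / (c1 * N)) := by
      rw [Finset.sum_const, nsmul_eq_mul]
      exact mul_le_mul_of_nonneg_right h4 (by positivity)
    linarith
  have h7 : ∑ Q, Pr om wt R (σ.kd Q) (fun x => ¬ σ.Adm p Q x) ≤
      ∑ Q : P, (16 * (s : ℝ) ^ 2 * (1 / (c1 * N)) + Pr om wt R (σ.kd Q) (fun x => ¬ σ.Ex Q x)) :=
    Finset.sum_le_sum (fun Q _ => hQ Q)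
  rw [Finset.sum_add_distrib] at h7
  have h8 : ∑ _Q : P, 16 * (s : ℝ) ^ 2 * (1 / (c1 * N)) ≤ 16 * (s : ℝ) ^ 2 / c1 := by
    rw [Finset.sum_const, nsmul_eq_mul, Finset.card_univ]
    have h9 : (Fintype.card P : ℝ) ≤ N := by exact_mod_cast H.cardP
    calc (Fintype.card P : ℝ) * (16 * (s : ℝ) ^ 2 * (1 / (c1 * N)))
        ≤ N * (16 * (s : ℝ) ^ 2 * (1 / (c1 * N))) :=
          mul_le_mul_of_nonneg_right h9 (by positivity)
      _ = 16 * (s : ℝ) ^ 2 / c1 := by field_simp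
  have h10 : (0 : ℝ) ≤ B := Nat.cast_nonneg B
  have h11 := H.exload
  linarith

theorem sum_wH_filter_ge (H : GOKH σ om wt R p N B c1 C1 γ η) (hN : 0 < c1 * N)
    (A : P → (Fin s → ℕ) → Prop) [DecidablePred fun e : HE P s R => A e.1 (lb e)] :
    ∑ Q, Pr om wt R (σ.kd Q) (A Q) - (16 * s ^ 2 / c1 + B + η * N) ≤
      ∑ e ∈ univ.filter (fun e : HE P s R => A e.1 (lb e)), wH σ om wt R p e := by
  classical
  have h1 : ∑ e ∈ univ.filter (fun e : HE P s R => A e.1 (lb e)), wH σ om wt R p e =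
      ∑ Q, Pr om wt R (σ.kd Q) (fun x => A Q x ∧ σ.Adm p Q x) := by
    rw [Finset.sum_filter, Fintype.sum_prod_type]
    refine Finset.sum_congr rfl (fun Q _ => ?_)
    unfold Pr
    refine Finset.sum_congr rfl (fun x _ => ?_)
    have hlb : (fun i => (x i : ℕ)) = lb ((Q, x) : HE P s R) := rfl
    simp only [wH, hlb]
    by_cases hA : A Q (lb ((Q, x) : HE P s R))
    · by_cases hB : σ.Adm p Q (lb ((Q, x) : HE P s R))
      · simp [hA, hB]
      · simp [hA, hB]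
    · simp [hA]
  have h2 : ∀ Q, Pr om wt R (σ.kd Q) (A Q) ≤ Pr om wt R (σ.kd Q) (fun x => A Q x ∧ σ.Adm p Q x) +
      Pr om wt R (σ.kd Q) (fun x => ¬ σ.Adm p Q x) := by
    intro Q
    refine le_trans (Pr_mono H.law (B := fun x => (A Q x ∧ σ.Adm p Q x) ∨ ¬ σ.Adm p Q x) ?_)
      (Pr_or_le H.law (fun x => A Q x ∧ σ.Adm p Q x) (fun x => ¬ σ.Adm p Q x))
    intro x _ hx
    by_cases hB : σ.Adm p Q x
    · exact Or.inl ⟨hx, hB⟩
    · exact Or.inr hB
  have h3 : ∑ Q, Pr om wt R (σ.kd Q) (A Q) ≤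
      ∑ Q, Pr om wt R (σ.kd Q) (fun x => A Q x ∧ σ.Adm p Q x) +
      ∑ Q, Pr om wt R (σ.kd Q) (fun x => ¬ σ.Adm p Q x) := by
    rw [← Finset.sum_add_distrib]
    exact Finset.sum_le_sum (fun Q _ => h2 Q)
  have h4 := sum_not_adm_le H hN
  rw [h1]
  linarith

end Pool.Agent.AME
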