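import Pool.Agent.AME.Loads

/-!
# General parts theorem: codegrees

Adaptation of `AMA/Codeg.lean` (classes `0, 1, 2` instead of the tags `0, 1, 2, 3`; point
probabilities from `AME/Point.lean` with `θ = 1 / (c1 N)`).
-/

set_option autoImplicit false
set_option linter.unusedSectionVars false

namespace Pool.Agent.AME

open Finset
open Pool.Agent.MP9a04dc (deg codeg Good)
open Pool.Agent.AMA (Frm val HE HV lb)

variable {P K : Type} [Fintype P] [DecidableEq P] [DecidableEq K] {Md : Type} [Fintype Md] {s : ℕ}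
  {σ : GSys P K s} {om : Md → ℝ} {wt : K → Md → ℕ → ℝ} {R p N B : ℕ} {c1 C1 γ η : ℝ}

private theorem Codeg_mem {Q : P} {u : Fin 3 × Frm s} (hu : u ∈ σ.cf Q) :
    (u.1 = 0 ∧ ∃ i, u.2 = ({i}, 0)) ∨ (u.1 = 1 ∧ u.2 ∈ σ.S Q) ∨
      (u.2 ∈ σ.Bf Q ∧ u.1 = 2) := by
  unfold GSys.cf at hu
  simp only [mem_union, mem_image, mem_filter, mem_univ, true_and] at hu
  rcases hu with (⟨i, _, rfl⟩ | ⟨φ, hφ, rfl⟩) | ⟨β, hβ, rfl⟩
  · left; exact ⟨rfl, i, rfl⟩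
  · right; left; exact ⟨rfl, hφ⟩
  · right; right; exact ⟨hβ, rfl⟩

private theorem Codeg_cf0 {Q : P} {u : Fin 3 × Frm s} (hu : u ∈ σ.cf Q) (h0 : u.1 = 0) :
    ∃ i, u.2 = ({i}, 0) := by
  rcases Codeg_mem hu with ⟨_, h⟩ | ⟨h1, _⟩ | ⟨_, h1⟩
  · exact h
  · rw [h0] at h1; exact absurd h1 (by decide)
  · rw [h0] at h1; exact absurd h1 (by decide)

private theorem Codeg_cf1 {Q : P} {u : Fin 3 × Frm s} (hu : u ∈ σ.cf Q) (h0 : u.1 = 1) :
    u.2 ∈ σ.S Q := by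
  rcases Codeg_mem hu with ⟨h1, _⟩ | ⟨_, h⟩ | ⟨_, h1⟩
  · rw [h0] at h1; exact absurd h1 (by decide)
  · exact h
  · rw [h0] at h1; exact absurd h1 (by decide)

private theorem Codeg_cf2 {Q : P} {u : Fin 3 × Frm s} (hu : u ∈ σ.cf Q) (h0 : u.1 = 2) :
    u.2 ∈ σ.Bf Q ∧ u.1 = 2 := by
  rcases Codeg_mem hu with ⟨h1, _⟩ | ⟨h1, _⟩ | h
  · rw [h0] at h1; exact absurd h1 (by decide)
  · rw [h0] at h1; exact absurd h1 (by decide)
  · exact h

/-- reduction of the count to a count of other objects -/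
private theorem Codeg_inj {X : Type} (T : P → Finset X) (t t' : Fin 3) (δ : ℕ)
    (g : (Fin 3 × Frm s) × (Fin 3 × Frm s) → X)
    (h1 : ∀ Q u v, u ∈ σ.cf Q → v ∈ σ.cf Q → u ≠ v → u.1 = t → v.1 = t' → u.2.1 = v.2.1 →
      u.2.2 % p = (v.2.2 + δ) % p → g (u, v) ∈ T Q)
    (h2 : ∀ Q u v u' v', u ∈ σ.cf Q → v ∈ σ.cf Q → u' ∈ σ.cf Q → v' ∈ σ.cf Q →
      u.1 = t → v.1 = t' → u'.1 = t → v'.1 = t' → u.2.1 = v.2.1 → u'.2.1 = v'.2.1 →
      g (u, v) = g (u', v') → u = u' ∧ v = v') (hB : ∑ Q, (T Q).card ≤ B) :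
    ∑ Q, ((((σ.cf Q) ×ˢ (σ.cf Q)).filter fun u => u.1 ≠ u.2 ∧ u.1.1 = t ∧ u.2.1 = t' ∧
      u.1.2.1 = u.2.2.1 ∧ u.1.2.2 % p = (u.2.2.2 + δ) % p).card) ≤ B := by
  refine le_trans (sum_le_sum fun Q _ => ?_) hB
  refine Finset.card_le_card_of_injOn g ?_ ?_
  · rintro ⟨u, v⟩ huv
    simp only [coe_filter, mem_product, Set.mem_ofPred_eq] at huv
    obtain ⟨⟨hu, hv⟩, hne, ht, ht', hs, hm⟩ := huv
    exact h1 Q u v hu hv hne ht ht' hs hm
  · rintro ⟨u, v⟩ huv ⟨u', v'⟩ huv' he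
    simp only [coe_filter, mem_product, Set.mem_ofPred_eq] at huv huv'
    obtain ⟨⟨hu, hv⟩, hne, ht, ht', hs, hm⟩ := huv
    obtain ⟨⟨hu', hv'⟩, hne', htt, htt', hs', hm'⟩ := huv'
    obtain ⟨e1, e2⟩ := h2 Q u v u' v' hu hv hu' hv' ht ht' htt htt' hs hs' he
    rw [e1, e2]

private theorem Codeg_Bf_lt (H : GOKH σ om wt R p N B c1 C1 γ η) {Q : P}
    {β : Frm s} (hβ : β ∈ σ.Bf Q) : β.2 < p := by
  unfold GSys.Bf at hβ
  simp only [mem_filter, mem_biUnion] at hβ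
  obtain ⟨⟨g, hg, hb⟩, _⟩ := hβ
  exact H.S_lt Q (insert g.1 β.1, β.2) (H.G_S Q g hg β hb)

/-- number of gadget ends with one slot and offset `d` -/
private theorem Codeg_m2 (H : GOKH σ om wt R p N B c1 C1 γ η) (d : ℕ) :
    ∑ Q, ((σ.Bf Q).filter fun β => β.1.card = 1 ∧ β.2 = d).card ≤ B := by
  classical
  by_cases hd : d ∈ σ.Z
  · have h0 : ∀ Q, ((σ.Bf Q).filter fun β => β.1.card = 1 ∧ β.2 = d) = ∅ := by
      intro Q
      apply Finset.filter_eq_empty_iff.mpr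
      intro β hβ h1
      unfold GSys.Bf at hβ
      simp only [mem_filter] at hβ
      exact hβ.2.2 ⟨h1.1, by rw [h1.2]; exact hd⟩
    simp [h0]
  · refine le_trans (sum_le_sum fun Q _ => ?_) (H.m2' d hd)
    have : ((σ.Bf Q).filter fun β => β.1.card = 1 ∧ β.2 = d) ⊆
        (σ.Gd Q).biUnion fun g => g.2.filter fun β => β.1.card = 1 ∧ β.2 = d := by
      intro β hβ
      rw [mem_filter] at hβ
      unfold GSys.Bf at hβ
      simp only [mem_filter, mem_biUnion] at hβ ⊢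
      obtain ⟨⟨⟨g, hg, hb⟩, _⟩, h1⟩ := hβ
      exact ⟨g, hg, hb, h1⟩
    exact le_trans (card_le_card this) card_biUnion_le

/-- the residue of `-δ` -/
private theorem Codeg_neg {p x δ : ℕ} (hx : x < p) (hm : 0 % p = (x + δ) % p) :
    x = (p - δ % p) % p := by
  have hp : 0 < p := by omega
  have h1 : (x + δ % p) % p = 0 := by rw [Nat.add_mod_mod, ← hm]; simp
  have h2 : δ % p < p := Nat.mod_lt _ hp
  obtain ⟨c, hc⟩ := Nat.dvd_of_mod_eq_zero h1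
  have hc2 : c < 2 := by
    by_contra h
    have : p * 2 ≤ p * c := Nat.mul_le_mul_left p (by omega)
    omega
  interval_cases c
  · have : x = 0 := by omega
    have h3 : δ % p = 0 := by omega
    rw [h3, this]; simp
  · have : x = p - δ % p := by omega
    rw [← this, Nat.mod_eq_of_lt hx]

private theorem Codeg_pos {p x δ : ℕ} (hx : x < p) (hm : x % p = (0 + δ) % p) : x = δ % p := by
  rw [Nat.mod_eq_of_lt hx, zero_add] at hm; exact hm

private theorem Codeg_swap {p x y δ : ℕ} (hp : 0 < p) (hm : x % p = (y + δ) % p) :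
    y % p = (x + (p - δ % p)) % p := by
  have h2 : δ % p < p := Nat.mod_lt _ hp
  have h1 : (x + (p - δ % p)) % p = ((y + δ) + (p - δ % p)) % p := by
    rw [Nat.add_mod, hm, ← Nat.add_mod]
  have h3 : (y + δ) + (p - δ % p) = y + p * (δ / p + 1) := by
    have := Nat.div_add_mod δ p
    rw [mul_add, mul_one]
    omega
  rw [h1, h3, Nat.add_mul_mod_self_left]

private theorem Codeg_ext0 {Q : P} {u u' : Fin 3 × Frm s} (hu : u ∈ σ.cf Q) (h0 : u.1 = 0)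
    (hu' : u' ∈ σ.cf Q) (h0' : u'.1 = 0) (hs : u.2.1 = u'.2.1) : u = u' := by
  obtain ⟨i, hi⟩ := Codeg_cf0 hu h0
  obtain ⟨j, hj⟩ := Codeg_cf0 hu' h0'
  refine Prod.ext (by rw [h0, h0']) (Prod.ext hs ?_)
  rw [hi, hj]

private theorem Codeg_ext (u u' : Fin 3 × Frm s) {t : Fin 3} (h0 : u.1 = t) (h0' : u'.1 = t)
    (hs : u.2 = u'.2) : u = u' := Prod.ext (by rw [h0, h0']) hs

/-- the tags `0, 0` and `1, 1`: no pairs -/
private theorem Codeg_zero (t t' : Fin 3) (δ : ℕ)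
    (h : ∀ (Q : P) (u v : Fin 3 × Frm s), u ∈ σ.cf Q → v ∈ σ.cf Q → u.1 = t → v.1 = t' →
      u.2.1 = v.2.1 → u = v) :
    ∑ Q, ((((σ.cf Q) ×ˢ (σ.cf Q)).filter fun u => u.1 ≠ u.2 ∧ u.1.1 = t ∧ u.2.1 = t' ∧
      u.1.2.1 = u.2.2.1 ∧ u.1.2.2 % p = (u.2.2.2 + δ) % p).card) ≤ B := by
  refine le_trans (le_of_eq ?_) (Nat.zero_le B)
  refine Finset.sum_eq_zero fun Q _ => ?_
  rw [Finset.card_eq_zero, Finset.filter_eq_empty_iff]
  rintro ⟨u, v⟩ huv ⟨hne, h1, h2, hs, _⟩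
  rw [mem_product] at huv
  exact hne (h Q u v huv.1 huv.2 h1 h2 hs)

private theorem Codeg_c01 (H : GOKH σ om wt R p N B c1 C1 γ η) (t t' : Fin 3) (δ : ℕ)
    (ht : t = 0) (ht' : t' = 1) :
    ∑ Q, ((((σ.cf Q) ×ˢ (σ.cf Q)).filter fun u => u.1 ≠ u.2 ∧ u.1.1 = t ∧ u.2.1 = t' ∧
      u.1.2.1 = u.2.2.1 ∧ u.1.2.2 % p = (u.2.2.2 + δ) % p).card) ≤ B := by
  refine Codeg_inj (fun Q => (σ.S Q).filter fun φ => φ.1.card = 1 ∧ φ.2 = (p - δ % p) % p)
    t t' δ (fun w => w.2.2) ?_ ?_ (H.m1 ((p - δ % p) % p))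
  · intro Q u v hu hv _ h1 h2 hs hm
    obtain ⟨i, hi⟩ := Codeg_cf0 hu (by rw [h1, ht])
    have hS := Codeg_cf1 hv (by rw [h2, ht'])
    rw [hi] at hs hm
    refine mem_filter.mpr ⟨hS, ?_, ?_⟩
    · show v.2.1.card = 1
      rw [← hs]; exact card_singleton i
    · exact Codeg_neg (H.S_lt Q _ hS) hm
  · intro Q u v u' v' hu hv hu' hv' h1 h2 h1' h2' hs hs' he
    have he' : v.2 = v'.2 := he
    exact ⟨Codeg_ext0 hu (by rw [h1, ht]) hu' (by rw [h1', ht]) (by rw [hs, hs', he']),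
      Codeg_ext v v' h2 h2' he'⟩

private theorem Codeg_c02 (H : GOKH σ om wt R p N B c1 C1 γ η) (t t' : Fin 3) (δ : ℕ)
    (ht : t = 0) (ht' : t' = 2) :
    ∑ Q, ((((σ.cf Q) ×ˢ (σ.cf Q)).filter fun u => u.1 ≠ u.2 ∧ u.1.1 = t ∧ u.2.1 = t' ∧
      u.1.2.1 = u.2.2.1 ∧ u.1.2.2 % p = (u.2.2.2 + δ) % p).card) ≤ B := by
  refine Codeg_inj (fun Q => (σ.Bf Q).filter fun φ => φ.1.card = 1 ∧ φ.2 = (p - δ % p) % p)
    t t' δ (fun w => w.2.2) ?_ ?_ (Codeg_m2 H ((p - δ % p) % p))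
  · intro Q u v hu hv _ h1 h2 hs hm
    obtain ⟨i, hi⟩ := Codeg_cf0 hu (by rw [h1, ht])
    have hS := (Codeg_cf2 hv (by rw [h2, ht'])).1
    rw [hi] at hs hm
    refine mem_filter.mpr ⟨hS, ?_, ?_⟩
    · show v.2.1.card = 1
      rw [← hs]; exact card_singleton i
    · exact Codeg_neg (Codeg_Bf_lt H hS) hm
  · intro Q u v u' v' hu hv hu' hv' h1 h2 h1' h2' hs hs' he
    have he' : v.2 = v'.2 := he
    exact ⟨Codeg_ext0 hu (by rw [h1, ht]) hu' (by rw [h1', ht]) (by rw [hs, hs', he']),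
      Codeg_ext v v' h2 h2' he'⟩

private theorem Codeg_c10 (H : GOKH σ om wt R p N B c1 C1 γ η) (t t' : Fin 3) (δ : ℕ)
    (ht : t = 1) (ht' : t' = 0) :
    ∑ Q, ((((σ.cf Q) ×ˢ (σ.cf Q)).filter fun u => u.1 ≠ u.2 ∧ u.1.1 = t ∧ u.2.1 = t' ∧
      u.1.2.1 = u.2.2.1 ∧ u.1.2.2 % p = (u.2.2.2 + δ) % p).card) ≤ B := by
  refine Codeg_inj (fun Q => (σ.S Q).filter fun φ => φ.1.card = 1 ∧ φ.2 = δ % p)
    t t' δ (fun w => w.1.2) ?_ ?_ (H.m1 (δ % p))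
  · intro Q u v hu hv _ h1 h2 hs hm
    obtain ⟨i, hi⟩ := Codeg_cf0 hv (by rw [h2, ht'])
    have hS := Codeg_cf1 hu (by rw [h1, ht])
    rw [hi] at hs hm
    refine mem_filter.mpr ⟨hS, ?_, ?_⟩
    · show u.2.1.card = 1
      rw [hs]; exact card_singleton i
    · exact Codeg_pos (H.S_lt Q _ hS) hm
  · intro Q u v u' v' hu hv hu' hv' h1 h2 h1' h2' hs hs' he
    have he' : u.2 = u'.2 := he
    exact ⟨Codeg_ext u u' h1 h1' he',
      Codeg_ext0 hv (by rw [h2, ht']) hv' (by rw [h2', ht']) (by rw [← hs, ← hs', he'])⟩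

private theorem Codeg_c20 (H : GOKH σ om wt R p N B c1 C1 γ η) (t t' : Fin 3) (δ : ℕ)
    (ht : t = 2) (ht' : t' = 0) :
    ∑ Q, ((((σ.cf Q) ×ˢ (σ.cf Q)).filter fun u => u.1 ≠ u.2 ∧ u.1.1 = t ∧ u.2.1 = t' ∧
      u.1.2.1 = u.2.2.1 ∧ u.1.2.2 % p = (u.2.2.2 + δ) % p).card) ≤ B := by
  refine Codeg_inj (fun Q => (σ.Bf Q).filter fun φ => φ.1.card = 1 ∧ φ.2 = δ % p)
    t t' δ (fun w => w.1.2) ?_ ?_ (Codeg_m2 H (δ % p))
  · intro Q u v hu hv _ h1 h2 hs hm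
    obtain ⟨i, hi⟩ := Codeg_cf0 hv (by rw [h2, ht'])
    have hS := (Codeg_cf2 hu (by rw [h1, ht])).1
    rw [hi] at hs hm
    refine mem_filter.mpr ⟨hS, ?_, ?_⟩
    · show u.2.1.card = 1
      rw [hs]; exact card_singleton i
    · exact Codeg_pos (Codeg_Bf_lt H hS) hm
  · intro Q u v u' v' hu hv hu' hv' h1 h2 h1' h2' hs hs' he
    have he' : u.2 = u'.2 := he
    exact ⟨Codeg_ext u u' h1 h1' he',
      Codeg_ext0 hv (by rw [h2, ht']) hv' (by rw [h2', ht']) (by rw [← hs, ← hs', he'])⟩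

private theorem Codeg_c12 (H : GOKH σ om wt R p N B c1 C1 γ η) (t t' : Fin 3) (δ : ℕ)
    (ht : t = 1) (ht' : t' = 2) :
    ∑ Q, ((((σ.cf Q) ×ˢ (σ.cf Q)).filter fun u => u.1 ≠ u.2 ∧ u.1.1 = t ∧ u.2.1 = t' ∧
      u.1.2.1 = u.2.2.1 ∧ u.1.2.2 % p = (u.2.2.2 + δ) % p).card) ≤ B := by
  refine Codeg_inj (X := Frm s × Frm s) (fun Q => ((σ.S Q) ×ˢ (σ.Bf Q)).filter fun u =>
    u.1.1 = u.2.1 ∧ u.1.2 % p = (u.2.2 + δ) % p) t t' δ (fun w => (w.1.2, w.2.2)) ?_ ?_ (H.m3 δ)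
  · intro Q u v hu hv _ h1 h2 hs hm
    refine mem_filter.mpr ⟨mem_product.mpr ⟨Codeg_cf1 hu (by rw [h1, ht]),
      (Codeg_cf2 hv (by rw [h2, ht'])).1⟩, hs, hm⟩
  · intro Q u v u' v' hu hv hu' hv' h1 h2 h1' h2' hs hs' he
    have he' : u.2 = u'.2 ∧ v.2 = v'.2 := Prod.mk.inj he
    exact ⟨Codeg_ext u u' h1 h1' he'.1, Codeg_ext v v' h2 h2' he'.2⟩

private theorem Codeg_c21 (H : GOKH σ om wt R p N B c1 C1 γ η) (t t' : Fin 3) (δ : ℕ)
    (ht : t = 2) (ht' : t' = 1) :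
    ∑ Q, ((((σ.cf Q) ×ˢ (σ.cf Q)).filter fun u => u.1 ≠ u.2 ∧ u.1.1 = t ∧ u.2.1 = t' ∧
      u.1.2.1 = u.2.2.1 ∧ u.1.2.2 % p = (u.2.2.2 + δ) % p).card) ≤ B := by
  have hp : 0 < p := lt_of_le_of_lt (Nat.zero_le _) H.Rp
  refine Codeg_inj (X := Frm s × Frm s) (fun Q => ((σ.S Q) ×ˢ (σ.Bf Q)).filter fun u =>
    u.1.1 = u.2.1 ∧ u.1.2 % p = (u.2.2 + (p - δ % p)) % p) t t' δ (fun w => (w.2.2, w.1.2))
    ?_ ?_ (H.m3 (p - δ % p))
  · intro Q u v hu hv _ h1 h2 hs hm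
    refine mem_filter.mpr ⟨mem_product.mpr ⟨Codeg_cf1 hv (by rw [h2, ht']),
      (Codeg_cf2 hu (by rw [h1, ht])).1⟩, hs.symm, Codeg_swap hp hm⟩
  · intro Q u v u' v' hu hv hu' hv' h1 h2 h1' h2' hs hs' he
    have he' : v.2 = v'.2 ∧ u.2 = u'.2 := Prod.mk.inj he
    exact ⟨Codeg_ext u u' h1 h1' he'.2, Codeg_ext v v' h2 h2' he'.1⟩

private theorem Codeg_c22 (H : GOKH σ om wt R p N B c1 C1 γ η) (t t' : Fin 3) (δ : ℕ)
    (ht : t = 2) (ht' : t' = 2) :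
    ∑ Q, ((((σ.cf Q) ×ˢ (σ.cf Q)).filter fun u => u.1 ≠ u.2 ∧ u.1.1 = t ∧ u.2.1 = t' ∧
      u.1.2.1 = u.2.2.1 ∧ u.1.2.2 % p = (u.2.2.2 + δ) % p).card) ≤ B := by
  refine Codeg_inj (X := Frm s × Frm s) (fun Q => ((σ.Bf Q) ×ˢ (σ.Bf Q)).filter fun u =>
    u.1 ≠ u.2 ∧ u.1.1 = u.2.1 ∧ u.1.2 % p = (u.2.2 + δ) % p) t t' δ (fun w => (w.1.2, w.2.2))
    ?_ ?_ (H.m4 δ)
  · intro Q u v hu hv hne h1 h2 hs hm
    have hu2 := Codeg_cf2 hu (by rw [h1, ht])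
    have hv2 := Codeg_cf2 hv (by rw [h2, ht'])
    refine mem_filter.mpr ⟨mem_product.mpr ⟨hu2.1, hv2.1⟩, ?_, hs, hm⟩
    intro he
    have he' : u.2 = v.2 := he
    exact hne (Prod.ext (by rw [hu2.2, hv2.2]) he')
  · intro Q u v u' v' hu hv hu' hv' h1 h2 h1' h2' hs hs' he
    have he' : u.2 = u'.2 ∧ v.2 = v'.2 := Prod.mk.inj he
    exact ⟨Codeg_ext u u' h1 h1' he'.1, Codeg_ext v v' h2 h2' he'.2⟩

/-- pairs of coordinates with the same set of slots: the number of parts (with multiplicity) in which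
a pair with tags `t, t'` and difference of the offsets `δ` (modulo `p`) occurs is at most `B`.
Proof. tags `(0,0)`: equal slots give equal coordinates, the count is `0`. `(1,1)`: the same by `S_inj`.
`(0,1)`, `(1,0)`: the sum form has exactly one slot `i` and determines the label coordinate, so the
count is at most that of `m1` with the residue of `∓ δ` (all offsets are `< p`). `(0,2),(0,3)` and reverse: the
gadget form has one slot, by the definition of `Bf` its offset is not `σ.z`, use `m2'` (the elements of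
`Bf Q` are ends of gadgets). `(1,2),(1,3)` and reverse: `m3`. tags in `{2,3}`: `m4` (the tag is a
function of the form, so different coordinates have different forms). -/
private theorem Codeg_count_same (H : GOKH σ om wt R p N B c1 C1 γ η) (t t' : Fin 3) (δ : ℕ) :
    ∑ Q, ((((σ.cf Q) ×ˢ (σ.cf Q)).filter fun u => u.1 ≠ u.2 ∧ u.1.1 = t ∧ u.2.1 = t' ∧
      u.1.2.1 = u.2.2.1 ∧ u.1.2.2 % p = (u.2.2.2 + δ) % p).card) ≤ B := by
  have key : ∀ t : Fin 3, t = 0 ∨ t = 1 ∨ t = 2 := by decide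
  rcases key t with ht | ht | ht <;> rcases key t' with ht' | ht' | ht'
  · refine Codeg_zero t t' δ fun Q u v hu hv h1 h2 hs => ?_
    exact Codeg_ext0 hu (by rw [h1, ht]) hv (by rw [h2, ht']) hs
  · exact Codeg_c01 H t t' δ ht ht'
  · exact Codeg_c02 H t t' δ ht ht'
  · exact Codeg_c10 H t t' δ ht ht'
  · refine Codeg_zero t t' δ fun Q u v hu hv h1 h2 hs => ?_
    exact Codeg_ext u v (h1.trans ht) (h2.trans ht')
      (H.S_inj Q _ (Codeg_cf1 hu (by rw [h1, ht])) _ (Codeg_cf1 hv (by rw [h2, ht'])) hs)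
  · exact Codeg_c12 H t t' δ ht ht'
  · exact Codeg_c20 H t t' δ ht ht'
  · exact Codeg_c21 H t t' δ ht ht'
  · exact Codeg_c22 H t t' δ ht ht'

private theorem Codeg_modeq {p u v S a a' : ℕ} (ha' : a' < p) (h1 : (u + S) % p = a)
    (h2 : (v + S) % p = a') : u % p = (v + (a + (p - a'))) % p := by
  have e1 : u + S ≡ a [MOD p] := by rw [← h1]; exact (Nat.mod_modEq _ _).symm
  have e2 : v + S ≡ a' [MOD p] := by rw [← h2]; exact (Nat.mod_modEq _ _).symm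
  have e : u + (S + a') ≡ (v + (a + (p - a'))) + (S + a') [MOD p] := by
    calc u + (S + a') = (u + S) + a' := by ring
      _ ≡ a + a' [MOD p] := e1.add_right _
      _ ≡ a + (v + S) [MOD p] := (e2.symm).add_left _
      _ ≡ a + (v + S) + p [MOD p] := by simp [Nat.ModEq]
      _ = (v + (a + (p - a'))) + (S + a') := by omega
  exact Nat.ModEq.add_right_cancel' _ e

/-- one value of a coordinate -/
private theorem Codeg_one (H : GOKH σ om wt R p N B c1 C1 γ η) (Q : P)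
    (u : Fin 3 × Frm s) (hu : u ∈ σ.cf Q) (a : ℕ) :
    Pr om wt R (σ.kd Q) (fun x => val u.2 x % p = a) ≤ 1 / (c1 * N) := by
  obtain ⟨hne, hact⟩ := cf_act H Q u hu
  exact Pr_val_mod_le H.law H.sRp H.Rp u.2 hact hne a

private theorem Codeg_pt (H : GOKH σ om wt R p N B c1 C1 γ η) (Q : P)
    (u v : Fin 3 × Frm s) (hu : u ∈ σ.cf Q) (hv : v ∈ σ.cf Q) (a a' : ℕ) (ha' : a' < p) :
    Pr om wt R (σ.kd Q) (fun x => val u.2 x % p = a ∧ val v.2 x % p = a') ≤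
      (1 / (c1 * N)) ^ 2 +
        (if u.2.1 = v.2.1 ∧ u.2.2 % p = (v.2.2 + (a + (p - a'))) % p then 1 / (c1 * N) else 0) := by
  have hsq : (0 : ℝ) ≤ (1 / (c1 * N)) ^ 2 := sq_nonneg _
  by_cases hs : u.2.1 = v.2.1
  · by_cases hm : u.2.2 % p = (v.2.2 + (a + (p - a'))) % p
    · rw [if_pos ⟨hs, hm⟩]
      have h1 : Pr om wt R (σ.kd Q) (fun x => val u.2 x % p = a ∧ val v.2 x % p = a') ≤
          Pr om wt R (σ.kd Q) (fun x => val u.2 x % p = a) :=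
        Pr_mono H.law fun x _ hx => hx.1
      linarith [Codeg_one H Q u hu a]
    · rw [if_neg (fun hh => hm hh.2)]
      have h1 : Pr om wt R (σ.kd Q) (fun x => val u.2 x % p = a ∧ val v.2 x % p = a') ≤
          Pr om wt R (σ.kd Q) (fun _ => False) := by
        refine Pr_mono H.law fun x _ hx => hm ?_
        obtain ⟨e1, e2⟩ := hx
        unfold Pool.Agent.AMA.val at e1 e2
        rw [hs] at e1
        exact Codeg_modeq ha' e1 e2
      have h2 : Pr om wt R (σ.kd Q) (fun _ => False) = 0 := by unfold Pr; simp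
      linarith
  · rw [if_neg (fun hh => hs hh.1), add_zero]
    obtain ⟨hu1, hu2⟩ := cf_act H Q u hu
    obtain ⟨hv1, hv2⟩ := cf_act H Q v hv
    exact Pr_two_mod_le H.law H.sRp H.Rp u.2 v.2 hu2 hv2 hu1 hv1 hs a a'

private theorem Codeg_card (t t' : Fin 3) (δ : ℕ) (c : ℝ) (Q : P) :
    ∑ u ∈ (σ.cf Q).filter (fun u => u.1 = t),
      ∑ v ∈ (σ.cf Q).filter (fun v => v.1 = t' ∧ v ≠ u),
        (if u.2.1 = v.2.1 ∧ u.2.2 % p = (v.2.2 + δ) % p then c else 0) =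
      ((((σ.cf Q) ×ˢ (σ.cf Q)).filter fun u => u.1 ≠ u.2 ∧ u.1.1 = t ∧ u.2.1 = t' ∧
        u.1.2.1 = u.2.2.1 ∧ u.1.2.2 % p = (u.2.2.2 + δ) % p).card : ℝ) * c := by
  rw [Finset.card_filter, Finset.sum_product]
  push_cast
  rw [Finset.sum_mul, Finset.sum_filter]
  refine Finset.sum_congr rfl fun u _ => ?_
  rw [Finset.sum_mul, Finset.sum_filter]
  by_cases h1 : u.1 = t
  · rw [if_pos h1]
    refine Finset.sum_congr rfl fun v _ => ?_
    by_cases h2 : v.1 = t' ∧ v ≠ u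
    · rw [if_pos h2]
      by_cases h3 : u.2.1 = v.2.1 ∧ u.2.2 % p = (v.2.2 + δ) % p
      · rw [if_pos h3, if_pos ⟨h2.2.symm, h1, h2.1, h3⟩, one_mul]
      · rw [if_neg h3, if_neg (fun hh => h3 hh.2.2.2), zero_mul]
    · rw [if_neg h2, if_neg (fun hh => h2 ⟨hh.2.2.1, hh.1.symm⟩), zero_mul]
  · rw [if_neg h1]
    symm
    refine Finset.sum_eq_zero fun v _ => ?_
    rw [if_neg (fun hh => h1 hh.2.1), zero_mul]

theorem codeg_val_le (H : GOKH σ om wt R p N B c1 C1 γ η) (hN : 0 < c1 * N)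
    (t t' : Fin 4) (a a' : Fin p) (hne : (t, a) ≠ (t', a')) :
    codeg (vsH σ R p) (wH σ om wt R p) (Sum.inr (t, a)) (Sum.inr (t', a')) ≤
      N * (16 * s ^ 2) * (1 / (c1 * N)) ^ 2 + B * (1 / (c1 * N)) := by
  have hc0 : (0 : ℝ) ≤ 1 / (c1 * N) := (one_div_pos.mpr hN).le
  have hsq : (0 : ℝ) ≤ (1 / (c1 * N)) ^ 2 := sq_nonneg _
  refine (codeg_inr_le H.law t t' a a' hne).trans ?_
  refine (Finset.sum_le_sum fun Q _ => Finset.sum_le_sum fun u hu => Finset.sum_le_sum fun v hv =>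
    Codeg_pt H Q u v (mem_filter.mp hu).1 (mem_filter.mp hv).1 a a' a'.2).trans ?_
  simp only [Finset.sum_add_distrib]
  refine add_le_add ?_ ?_
  · have hQ : ∀ Q : P, ∑ u ∈ (σ.cf Q).filter (fun u => u.1 = cl t),
        ∑ v ∈ (σ.cf Q).filter (fun v => v.1 = cl t' ∧ v ≠ u), (1 / (c1 * (N : ℝ))) ^ 2 ≤
        (16 * (s : ℝ) ^ 2) * (1 / (c1 * N)) ^ 2 := by
      intro Q
      have hcf : ((σ.cf Q).card : ℝ) ≤ 4 * s := by exact_mod_cast card_cf_le H Q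
      have hin : ∀ u ∈ (σ.cf Q).filter (fun u => u.1 = cl t),
          ∑ v ∈ (σ.cf Q).filter (fun v => v.1 = cl t' ∧ v ≠ u), (1 / (c1 * (N : ℝ))) ^ 2 ≤
          (4 * s) * (1 / (c1 * N)) ^ 2 := by
        intro u _
        rw [Finset.sum_const, nsmul_eq_mul]
        refine mul_le_mul_of_nonneg_right (le_trans ?_ hcf) hsq
        exact_mod_cast card_le_card (filter_subset _ _)
      refine (Finset.sum_le_sum hin).trans ?_
      rw [Finset.sum_const, nsmul_eq_mul]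
      have h1 : (((σ.cf Q).filter (fun u => u.1 = cl t)).card : ℝ) ≤ 4 * s := by
        refine le_trans ?_ hcf
        exact_mod_cast card_le_card (filter_subset _ _)
      have h2 : (0 : ℝ) ≤ (4 * s) * (1 / (c1 * N)) ^ 2 := by positivity
      calc _ ≤ (4 * (s : ℝ)) * ((4 * s) * (1 / (c1 * N)) ^ 2) := mul_le_mul_of_nonneg_right h1 h2
        _ = _ := by ring
    refine (Finset.sum_le_sum fun Q _ => hQ Q).trans ?_
    rw [Finset.sum_const, nsmul_eq_mul, Finset.card_univ, ← mul_assoc]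
    have h3 : (Fintype.card P : ℝ) ≤ N := by exact_mod_cast H.cardP
    refine mul_le_mul_of_nonneg_right ?_ hsq
    exact mul_le_mul_of_nonneg_right h3 (by positivity)
  · rw [Finset.sum_congr rfl fun Q _ => Codeg_card (σ := σ) (p := p) (cl t) (cl t') (a + (p - a')) _ Q,
      ← Finset.sum_mul]
    refine mul_le_mul_of_nonneg_right ?_ hc0
    exact_mod_cast Codeg_count_same H (cl t) (cl t') (a + (p - a'))

theorem codeg_part_le (H : GOKH σ om wt R p N B c1 C1 γ η) (hN : 0 < c1 * N)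
    (Q : P) (t : Fin 4) (a : Fin p) :
    codeg (vsH σ R p) (wH σ om wt R p) (Sum.inl Q) (Sum.inr (t, a)) ≤ 4 * s * (1 / (c1 * N)) := by
  have hc0 : (0 : ℝ) ≤ 1 / (c1 * N) := (one_div_pos.mpr hN).le
  refine (codeg_inl_inr_le H.law Q t a).trans ?_
  refine (Finset.sum_le_sum fun u hu => Codeg_one H Q u (mem_filter.mp hu).1 a).trans ?_
  rw [Finset.sum_const, nsmul_eq_mul]
  refine mul_le_mul_of_nonneg_right ?_ hc0
  have hcf : ((σ.cf Q).card : ℝ) ≤ 4 * s := by exact_mod_cast card_cf_le H Q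
  refine le_trans ?_ hcf
  exact_mod_cast card_le_card (filter_subset _ _)

theorem good_wH (s B : ℕ) (c1 κ : ℝ) (hc1 : 0 < c1) (hκ : 0 < κ) :
    ∃ N0 : ℕ, ∀ (P K Md : Type) [Fintype P] [DecidableEq P] [DecidableEq K] [Fintype Md]
      (σ : GSys P K s) (om : Md → ℝ) (wt : K → Md → ℕ → ℝ) (R p N : ℕ) (C1 γ η : ℝ),
      N0 ≤ N → 0 ≤ γ → GOKH σ om wt R p N B c1 C1 γ η →
      Good (vsH σ R p) (wH σ om wt R p) κ (4 * s + 1) := by
  obtain ⟨N0, hN0⟩ := exists_nat_ge (((16 * (s : ℝ) ^ 2) / c1 ^ 2 + B / c1 + 4 * s / c1) / κ)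
  refine ⟨N0 + 1, ?_⟩
  intro P K Md _ _ _ _ σ om wt R p N C1 γ η hNN hγ H
  have hNpos : (0 : ℝ) < N := by
    have : 0 < N := by omega
    exact_mod_cast this
  have hN : 0 < c1 * N := mul_pos hc1 hNpos
  have hNr : (N0 : ℝ) ≤ N := by
    have : N0 ≤ N := by omega
    exact_mod_cast this
  have hb : (16 * (s : ℝ) ^ 2) / c1 ^ 2 + B / c1 + 4 * s / c1 ≤ κ * N := by
    have := (div_le_iff₀ hκ).mp (hN0.trans hNr)
    linarith
  have hA1 : 0 ≤ (16 * (s : ℝ) ^ 2) / c1 ^ 2 := by positivity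
  have hA2 : 0 ≤ (B : ℝ) / c1 := by positivity
  have hA3 : 0 ≤ 4 * (s : ℝ) / c1 := by positivity
  have hpart : 4 * (s : ℝ) * (1 / (c1 * N)) ≤ κ := by
    have : 4 * (s : ℝ) * (1 / (c1 * N)) = (4 * s / c1) / N := by field_simp
    rw [this, div_le_iff₀ hNpos]
    linarith
  have hval : N * (16 * (s : ℝ) ^ 2) * (1 / (c1 * N)) ^ 2 + B * (1 / (c1 * N)) ≤ κ := by
    have : N * (16 * (s : ℝ) ^ 2) * (1 / (c1 * N)) ^ 2 + B * (1 / (c1 * N)) =
        ((16 * (s : ℝ) ^ 2) / c1 ^ 2 + B / c1) / N := by field_simp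
    rw [this, div_le_iff₀ hNpos]
    linarith
  refine ⟨wH_nonneg H.law, deg_le_one H hγ, ?_, card_vsH_le H, fun e => insert_nonempty _ _⟩
  have hsym : ∀ u v : HV P p, codeg (vsH σ R p) (wH σ om wt R p) u v =
      codeg (vsH σ R p) (wH σ om wt R p) v u := by
    intro u v
    unfold Pool.Agent.MP9a04dc.codeg
    refine Finset.sum_congr rfl fun e _ => ?_
    by_cases h1 : u ∈ vsH σ R p e ∧ v ∈ vsH σ R p e
    · rw [if_pos h1, if_pos h1.symm]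
    · rw [if_neg h1, if_neg (fun hh => h1 hh.symm)]
  rintro (Q | ⟨t, a⟩) (Q' | ⟨t', a'⟩) hne
  · rw [codeg_inl_inl Q Q' (fun hh => hne (by rw [hh]))]
    exact hκ.le
  · exact (codeg_part_le H hN Q t' a').trans hpart
  · rw [hsym]
    exact (codeg_part_le H hN Q' t a).trans hpart
  · exact (codeg_val_le H hN t t' a a' (fun hh => hne (by rw [hh]))).trans hval

end Pool.Agent.AME
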