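import Pool.Agent.AMA.Hyp
import Pool.Agent.AME.MachQ

/-!
# General parts theorem: definitions

Generalization of `AMA`: the labels of a part are drawn from a law with finitely many modes; given the
mode they are independent and the label of a slot of kind `k` has the weights `wt k md`. The loads of
labels, sums and gadget ends are hypotheses. Every sum form has a tag (a Boolean) that may depend on the
labels of the part; only sums with the same tag have to be distinct. `Ex` is an extra condition on the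
labels of a part.
-/

set_option autoImplicit false
set_option linter.unusedSectionVars false

namespace Pool.Agent.AME

open Finset
open Pool.Agent.AMB (pE)
open Pool.Agent.AMA (Frm val HE HV lb)

/-- A system of parts. `Z`: offsets of the forms of gadget ends with one slot that get no coordinate (the
value of such a form is a label plus a constant). -/
structure GSys (P K : Type) (s : ℕ) where
  /-- the exempt offsets (at most two) -/
  Z : Finset ℕ
  /-- the kinds of the slots -/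
  kd : P → Fin s → Option K
  /-- the sum forms -/
  S : P → Finset (Frm s)
  /-- the tag of a sum form for given labels -/
  tg : P → Frm s → (Fin s → ℕ) → Bool
  /-- the gadgets: flexible slot and the forms of its ends without the flexible slot -/
  Gd : P → Finset (Fin s × Finset (Frm s))
  /-- extra admissibility -/
  Ex : P → (Fin s → ℕ) → Prop

variable {P K : Type} {s : ℕ} [DecidableEq K]

/-- the forms of the gadget ends that get a coordinate -/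
def GSys.Bf (σ : GSys P K s) (Q : P) : Finset (Frm s) :=
  ((σ.Gd Q).biUnion fun g => g.2).filter fun β => β.1.Nonempty ∧ ¬(β.1.card = 1 ∧ β.2 ∈ σ.Z)

/-- all coordinates (class, form) of a part; class `0`: label, class `1`: sum, class `2`: gadget end -/
def GSys.cf (σ : GSys P K s) (Q : P) : Finset (Fin 3 × Frm s) :=
  ((univ.filter fun i => σ.kd Q i ≠ none).image fun i => ((0 : Fin 3), (({i} : Finset (Fin s)), 0))) ∪
    (σ.S Q).image (fun φ => ((1 : Fin 3), φ)) ∪ (σ.Bf Q).image (fun β => ((2 : Fin 3), β))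

/-- the tag of a coordinate: `0` label, `1`, `2` sums, `3` gadget ends -/
def GSys.tt (σ : GSys P K s) (Q : P) (u : Fin 3 × Frm s) (x : Fin s → ℕ) : Fin 4 :=
  if u.1 = 0 then 0 else if u.1 = 1 then (if σ.tg Q u.2 x then 2 else 1) else 3

/-- the class of a tag -/
def cl (t : Fin 4) : Fin 3 := if t = 0 then 0 else if t = 3 then 2 else 1

/-- Admissible labels of a part: different coordinates of the same class have different values
modulo `p`, and the extra condition. -/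
def GSys.Adm (σ : GSys P K s) (p : ℕ) (Q : P) (x : Fin s → ℕ) : Prop :=
  (∀ u ∈ σ.cf Q, ∀ v ∈ σ.cf Q, u.1 = v.1 → val u.2 x % p = val v.2 x % p → u = v) ∧ σ.Ex Q x

variable {Md : Type} [Fintype Md]

/-- A law: weights `om` of the modes, weights `wt k md` of the labels, atoms at most `θ`. -/
structure LawOK (om : Md → ℝ) (wt : K → Md → ℕ → ℝ) (R : ℕ) (θ : ℝ) : Prop where
  om_nn : ∀ md, 0 ≤ om md
  om_sum : ∑ md, om md = 1
  wt_nn : ∀ k md a, 0 ≤ wt k md a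
  wt_sum : ∀ k md, ∑ y : Fin (R + 1), wt k md (y : ℕ) = 1
  wt_zero : ∀ k md, wt k md 0 = 0
  wt_le : ∀ k md a, wt k md a ≤ θ

/-- weight of the label `y` for a slot of kind `o` in the mode `md` -/
noncomputable def wl (wt : K → Md → ℕ → ℝ) (R : ℕ) (md : Md) (o : Option K) (y : Fin (R + 1)) : ℝ :=
  match o with
  | none => if (y : ℕ) = 0 then 1 else 0
  | some k => wt k md (y : ℕ)

/-- probability of the labels `x` for the kinds `o` -/
noncomputable def pr (om : Md → ℝ) (wt : K → Md → ℕ → ℝ) (R : ℕ) (o : Fin s → Option K)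
    (x : Fin s → Fin (R + 1)) : ℝ :=
  ∑ md, om md * ∏ i, wl wt R md (o i) (x i)

open Classical in
/-- probability of an event -/
noncomputable def Pr (om : Md → ℝ) (wt : K → Md → ℕ → ℝ) (R : ℕ) (o : Fin s → Option K)
    (A : (Fin s → ℕ) → Prop) : ℝ :=
  ∑ x : Fin s → Fin (R + 1), if A (fun i => (x i : ℕ)) then pr om wt R o x else 0

open Classical in
/-- probability of an event in one mode -/
noncomputable def Prm (wt : K → Md → ℕ → ℝ) (R : ℕ) (md : Md) (o : Fin s → Option K)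
    (A : (Fin s → ℕ) → Prop) : ℝ :=
  pE (fun i => wl wt R md (o i)) (fun x => if A (fun i => (x i : ℕ)) then 1 else 0)

/-- The hypotheses of the general parts theorem (`N` = size parameter, all values are taken modulo
`p`). -/
structure GOKH [Fintype P] [DecidableEq P] (σ : GSys P K s) (om : Md → ℝ) (wt : K → Md → ℕ → ℝ)
    (R p N B : ℕ) (c1 C1 γ η : ℝ) : Prop where
  law : LawOK om wt R (1 / (c1 * N))
  cardP : Fintype.card P ≤ N
  Rp : R < p
  sRp : s * R < p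
  pN : (p : ℝ) ≤ C1 * N
  Zc : σ.Z.card ≤ 2
  -- the loads
  labload : ∀ a : ℕ, ∑ Q, ∑ i ∈ univ.filter (fun i => σ.kd Q i ≠ none),
    Pr om wt R (σ.kd Q) (fun x => x i = a) ≤ 1
  sumload : ∀ (t : Bool) (a : ℕ), ∑ Q, ∑ φ ∈ σ.S Q,
    Pr om wt R (σ.kd Q) (fun x => σ.tg Q φ x = t ∧ val φ x % p = a) ≤ 1 - γ
  bload : ∀ a : ℕ, ∑ Q, ∑ β ∈ σ.Bf Q, Pr om wt R (σ.kd Q) (fun x => val β x % p = a) ≤ 1
  exload : ∑ Q, Pr om wt R (σ.kd Q) (fun x => ¬ σ.Ex Q x) ≤ η * N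
  -- the sum forms
  S_act : ∀ Q, ∀ φ ∈ σ.S Q, ∀ i ∈ φ.1, σ.kd Q i ≠ none
  S_ne : ∀ Q, ∀ φ ∈ σ.S Q, φ.1.Nonempty
  S_inj : ∀ Q, ∀ φ ∈ σ.S Q, ∀ ψ ∈ σ.S Q, φ.1 = ψ.1 → φ = ψ
  S_lt : ∀ Q, ∀ φ ∈ σ.S Q, φ.2 < p
  S_card : ∀ Q, (σ.S Q).card ≤ s
  -- the gadgets
  G_act : ∀ Q, ∀ g ∈ σ.Gd Q, σ.kd Q g.1 ≠ none
  G_uniq : ∀ Q, ∀ g ∈ σ.Gd Q, ∀ g' ∈ σ.Gd Q, g.1 = g'.1 → g = g'
  G_card : ∀ Q, ∀ g ∈ σ.Gd Q, g.2.Nonempty ∧ g.2.card ≤ 2
  G_notin : ∀ Q, ∀ g ∈ σ.Gd Q, ∀ β ∈ g.2, g.1 ∉ β.1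
  G_S : ∀ Q, ∀ g ∈ σ.Gd Q, ∀ β ∈ g.2, (insert g.1 β.1, β.2) ∈ σ.S Q
  G_ne : ∀ Q, ∀ g ∈ σ.Gd Q, ∀ β ∈ g.2, ∀ β' ∈ g.2, β.1 = β'.1 → β = β'
  B_card : ∀ Q, (σ.Bf Q).card ≤ 2 * s
  -- multiplicities
  m1 : ∀ δ : ℕ, ∑ Q, (((σ.S Q).filter fun φ => φ.1.card = 1 ∧ φ.2 = δ).card) ≤ B
  m2 : ∀ δ : ℕ, ∑ Q, ∑ g ∈ σ.Gd Q, ((g.2.filter fun β => β.1 = ∅ ∧ β.2 = δ).card) ≤ B
  m2' : ∀ δ : ℕ, δ ∉ σ.Z →
    ∑ Q, ∑ g ∈ σ.Gd Q, ((g.2.filter fun β => β.1.card = 1 ∧ β.2 = δ).card) ≤ B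
  m3 : ∀ δ : ℕ, ∑ Q, ((((σ.S Q) ×ˢ (σ.Bf Q)).filter fun u =>
    u.1.1 = u.2.1 ∧ u.1.2 % p = (u.2.2 + δ) % p).card) ≤ B
  m4 : ∀ δ : ℕ, ∑ Q, ((((σ.Bf Q) ×ˢ (σ.Bf Q)).filter fun u =>
    u.1 ≠ u.2 ∧ u.1.1 = u.2.1 ∧ u.1.2 % p = (u.2.2 + δ) % p).card) ≤ B

/-- The gadget `g` of the part `Q` with the labels `x` is good for the label `y` and the partial sums
`π1, π2` (everything modulo `p`): all new values belong to both reserved sets. -/
def GOK (σ : GSys P K s) (p : ℕ) (T : Bool → Finset ℕ) (Q : P)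
    (x : Fin s → ℕ) (y π1 π2 : ℕ) (g : Fin s × Finset (Frm s)) : Prop :=
  g ∈ σ.Gd Q ∧ (∀ t, ∀ β ∈ g.2, (val β x + y) % p ∈ T t) ∧
    (∀ β ∈ g.2, ∀ β' ∈ g.2, val β x % p = val β' x % p → β = β') ∧
    (∀ t, (π1 + x g.1) % p ∈ T t ∧ (π2 + x g.1) % p ∈ T t) ∧
    (∀ β ∈ g.2, (π1 + x g.1) % p ≠ (val β x + y) % p ∧ (π2 + x g.1) % p ≠ (val β x + y) % p)

end Pool.Agent.AME
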