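import Pool.Agent.AME.Point

/-!
# General parts theorem: the hypergraph

Adaptation of `AMA/Hyp.lean`: the tag of a sum coordinate depends on the labels.
-/

set_option autoImplicit false
set_option linter.unusedSectionVars false

namespace Pool.Agent.AME

open Finset
open Pool.Agent.MP9a04dc (deg codeg Good)
open Pool.Agent.AMA (Frm val HE HV lb)

variable {P K : Type} [Fintype P] [DecidableEq P] [DecidableEq K] {Md : Type} [Fintype Md] {s : ℕ}

/-- the vertices of a hyperedge -/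
def vsH (σ : GSys P K s) (R p : ℕ) (e : HE P s R) : Finset (HV P p) :=
  insert (Sum.inl e.1) ((univ.filter fun v : Fin 4 × Fin p =>
    ∃ u ∈ σ.cf e.1, σ.tt e.1 u (lb e) = v.1 ∧ val u.2 (lb e) % p = v.2).image Sum.inr)

open Classical in
/-- the weights of the hyperedges -/
noncomputable def wH (σ : GSys P K s) (om : Md → ℝ) (wt : K → Md → ℕ → ℝ) (R p : ℕ)
    (e : HE P s R) : ℝ :=
  if σ.Adm p e.1 (lb e) then pr om wt R (σ.kd e.1) e.2 else 0

variable {σ : GSys P K s} {om : Md → ℝ} {wt : K → Md → ℕ → ℝ} {R p N B : ℕ} {c1 C1 γ η θ : ℝ}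

theorem mem_vsH_inl {e : HE P s R} {Q : P} : Sum.inl Q ∈ vsH σ R p e ↔ e.1 = Q := by
  simp only [vsH, Finset.mem_insert, Finset.mem_image, Finset.mem_filter, Finset.mem_univ, true_and]
  constructor
  · rintro (h | ⟨v, _, hv⟩)
    · exact (Sum.inl.inj h).symm
    · cases hv
  · intro h
    exact Or.inl (by rw [h])

theorem mem_vsH_inr {e : HE P s R} {t : Fin 4} {a : Fin p} :
    Sum.inr (t, a) ∈ vsH σ R p e ↔
      ∃ u ∈ σ.cf e.1, σ.tt e.1 u (lb e) = t ∧ val u.2 (lb e) % p = a := by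
  simp only [vsH, Finset.mem_insert, Finset.mem_image, Finset.mem_filter, Finset.mem_univ, true_and]
  constructor
  · rintro (h | ⟨v, hv, hv'⟩)
    · cases h
    · have h2 : v = (t, a) := Sum.inr.inj hv'
      subst h2
      exact hv
  · intro h
    exact Or.inr ⟨(t, a), h, rfl⟩

theorem cl_tt (Q : P) (u : Fin 3 × Frm s) (x : Fin s → ℕ) : cl (σ.tt Q u x) = u.1 := by
  obtain ⟨k, φ⟩ := u
  unfold GSys.tt cl
  by_cases h0 : k = 0
  · subst h0
    simp
  · by_cases h1 : k = 1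
    · subst h1
      by_cases h2 : σ.tg Q φ x = true
      · simp only [h2]
        decide
      · simp only [h2]
        decide
    · have h3 : k = 2 := by
        revert h0 h1
        revert k
        decide
      subst h3
      have h4 : ¬ ((2 : Fin 3) = 0) := by decide
      have h5 : ¬ ((2 : Fin 3) = 1) := by decide
      simp only [if_neg h4, if_neg h5]
      decide

/-- sum over the hyperedges of a part -/
theorem sum_part_eq_Pr (Q : P) (A : (Fin s → ℕ) → Prop) [DecidablePred A] :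
    ∑ x : Fin s → Fin (R + 1), (if A (fun i => (x i : ℕ)) then pr om wt R (σ.kd Q) x else 0) =
      Pr om wt R (σ.kd Q) A := by
  classical
  unfold Pr
  apply Finset.sum_congr rfl
  intro x _
  by_cases hA : A (fun i => (x i : ℕ))
  · rw [if_pos hA, if_pos hA]
  · rw [if_neg hA, if_neg hA]

theorem wH_nonneg (L : LawOK om wt R θ) (e : HE P s R) : 0 ≤ wH σ om wt R p e := by
  unfold wH
  split_ifs
  · exact pr_nonneg L _
  · exact le_rfl

private theorem Hyp_wH_le_pr (L : LawOK om wt R θ) (e : HE P s R) :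
    wH σ om wt R p e ≤ pr om wt R (σ.kd e.1) e.2 := by
  unfold wH
  split_ifs
  · exact le_rfl
  · exact pr_nonneg L _

private theorem Hyp_sum_le_Pr (L : LawOK om wt R θ) (Q : P) (A : (Fin s → ℕ) → Prop)
    (C : (Fin s → Fin (R + 1)) → Prop)
    [DecidablePred C] (hC : ∀ x : Fin s → Fin (R + 1), C x → A (fun i => (x i : ℕ))) :
    ∑ x : Fin s → Fin (R + 1), (if C x then wH σ om wt R p (Q, x) else 0) ≤
      Pr om wt R (σ.kd Q) A := by
  classical
  rw [← sum_part_eq_Pr Q A]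
  apply Finset.sum_le_sum
  intro x _
  by_cases hx : C x
  · rw [if_pos hx, if_pos (hC x hx)]
    exact Hyp_wH_le_pr L (Q, x)
  · rw [if_neg hx]
    split_ifs
    · exact pr_nonneg L _
    · exact le_rfl

private theorem Hyp_two {α β : Type*} (L : LawOK om wt R θ) (o : Fin s → Option K) (F : Finset α)
    (G : α → Finset β) (A : α → β → (Fin s → ℕ) → Prop) :
    Pr om wt R o (fun x => ∃ u ∈ F, ∃ v ∈ G u, A u v x) ≤
      ∑ u ∈ F, ∑ v ∈ G u, Pr om wt R o (A u v) :=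
  le_trans (Pr_exists_le L F (fun u x => ∃ v ∈ G u, A u v x))
    (Finset.sum_le_sum fun u _ => Pr_exists_le L (G u) (A u))

theorem deg_inl_le (L : LawOK om wt R θ) (Q : P) :
    deg (vsH σ R p) (wH σ om wt R p) (Sum.inl Q) ≤ 1 := by
  classical
  unfold deg
  rw [Fintype.sum_prod_type]
  have h1 : ∀ Q' : P, (∑ x : Fin s → Fin (R + 1),
      if (Sum.inl Q : HV P p) ∈ vsH σ R p (Q', x) then wH σ om wt R p (Q', x) else 0) =
      if Q' = Q then ∑ x : Fin s → Fin (R + 1), wH σ om wt R p (Q', x) else 0 := by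
    intro Q'
    by_cases hQ : Q' = Q
    · rw [if_pos hQ]
      apply Finset.sum_congr rfl
      intro x _
      rw [if_pos (mem_vsH_inl.2 hQ)]
    · rw [if_neg hQ]
      apply Finset.sum_eq_zero
      intro x _
      rw [if_neg (fun h' => hQ (mem_vsH_inl.1 h'))]
  rw [Finset.sum_congr rfl fun Q' _ => h1 Q', Finset.sum_ite_eq' Finset.univ Q,
    if_pos (Finset.mem_univ _)]
  have h2 := Hyp_sum_le_Pr (σ := σ) (om := om) (wt := wt) (R := R) (p := p) L Q (fun _ => True)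
    (fun _ => True) (fun _ _ => trivial)
  rw [Pr_true L] at h2
  simpa using h2

theorem deg_inr_le (L : LawOK om wt R θ) (t : Fin 4) (a : Fin p) :
    deg (vsH σ R p) (wH σ om wt R p) (Sum.inr (t, a)) ≤
      ∑ Q, ∑ u ∈ (σ.cf Q).filter (fun u => u.1 = cl t),
        Pr om wt R (σ.kd Q) (fun x => σ.tt Q u x = t ∧ val u.2 x % p = a) := by
  unfold deg
  rw [Fintype.sum_prod_type]
  apply Finset.sum_le_sum
  intro Q _
  refine le_trans ?_ (Pr_exists_le L ((σ.cf Q).filter (fun u => u.1 = cl t))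
    (fun u x => σ.tt Q u x = t ∧ val u.2 x % p = a))
  apply Hyp_sum_le_Pr L
  intro x hx
  obtain ⟨u, hu, hu1, hu2⟩ := mem_vsH_inr.1 hx
  refine ⟨u, Finset.mem_filter.2 ⟨hu, ?_⟩, hu1, hu2⟩
  rw [← hu1, cl_tt]

theorem codeg_inr_le (L : LawOK om wt R θ) (t t' : Fin 4) (a a' : Fin p)
    (hne : (t, a) ≠ (t', a')) :
    codeg (vsH σ R p) (wH σ om wt R p) (Sum.inr (t, a)) (Sum.inr (t', a')) ≤
      ∑ Q, ∑ u ∈ (σ.cf Q).filter (fun u => u.1 = cl t),
        ∑ v ∈ (σ.cf Q).filter (fun v => v.1 = cl t' ∧ v ≠ u),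
          Pr om wt R (σ.kd Q) (fun x => val u.2 x % p = a ∧ val v.2 x % p = a') := by
  unfold codeg
  rw [Fintype.sum_prod_type]
  apply Finset.sum_le_sum
  intro Q _
  have h1 := (Hyp_two (om := om) (wt := wt) (R := R) L (σ.kd Q)
    ((σ.cf Q).filter (fun u => u.1 = cl t))
    (fun u => (σ.cf Q).filter (fun v => v.1 = cl t' ∧ v ≠ u))
    (fun u v x => val u.2 x % p = (a : ℕ) ∧ val v.2 x % p = (a' : ℕ)))
  refine le_trans ?_ h1
  apply Hyp_sum_le_Pr L
  rintro x ⟨hx, hx'⟩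
  obtain ⟨u, hu, hu1, hu2⟩ := mem_vsH_inr.1 hx
  obtain ⟨v, hv, hv1, hv2⟩ := mem_vsH_inr.1 hx'
  refine ⟨u, Finset.mem_filter.2 ⟨hu, ?_⟩, v, Finset.mem_filter.2 ⟨hv, ?_, ?_⟩, hu2, hv2⟩
  · rw [← hu1, cl_tt]
  · rw [← hv1, cl_tt]
  rintro rfl
  apply hne
  have h3 : (a : ℕ) = (a' : ℕ) := hu2.symm.trans hv2
  exact Prod.ext (hu1.symm.trans hv1) (Fin.ext h3)

theorem codeg_inl_inr_le (L : LawOK om wt R θ) (Q : P) (t : Fin 4) (a : Fin p) :
    codeg (vsH σ R p) (wH σ om wt R p) (Sum.inl Q) (Sum.inr (t, a)) ≤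
      ∑ u ∈ (σ.cf Q).filter (fun u => u.1 = cl t),
        Pr om wt R (σ.kd Q) (fun x => val u.2 x % p = a) := by
  unfold codeg
  rw [Fintype.sum_prod_type]
  have h0 : ∀ Q' : P, Q' ≠ Q → (∑ x : Fin s → Fin (R + 1),
      if (Sum.inl Q : HV P p) ∈ vsH σ R p (Q', x) ∧ (Sum.inr (t, a) : HV P p) ∈ vsH σ R p (Q', x) then
        wH σ om wt R p (Q', x) else 0) = 0 := by
    intro Q' hQ
    apply Finset.sum_eq_zero
    intro x _
    rw [if_neg (fun h' => hQ (mem_vsH_inl.1 h'.1))]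
  rw [Finset.sum_eq_single Q (fun Q' _ hQ => h0 Q' hQ) (fun h' => absurd (Finset.mem_univ _) h')]
  refine le_trans ?_ (Pr_exists_le L ((σ.cf Q).filter (fun u => u.1 = cl t))
    (fun u x => val u.2 x % p = a))
  apply Hyp_sum_le_Pr L
  rintro x ⟨_, hx⟩
  obtain ⟨u, hu, hu1, hu2⟩ := mem_vsH_inr.1 hx
  refine ⟨u, Finset.mem_filter.2 ⟨hu, ?_⟩, hu2⟩
  rw [← hu1, cl_tt]

theorem codeg_inl_inl (Q Q' : P) (hne : Q ≠ Q') :
    codeg (vsH σ R p) (wH σ om wt R p) (Sum.inl Q) (Sum.inl Q') = 0 := by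
  unfold codeg
  apply Finset.sum_eq_zero
  intro e _
  rw [if_neg]
  rintro ⟨h1, h2⟩
  exact hne ((mem_vsH_inl.1 h1).symm.trans (mem_vsH_inl.1 h2))

theorem card_cf_le (H : GOKH σ om wt R p N B c1 C1 γ η) (Q : P) : (σ.cf Q).card ≤ 4 * s := by
  unfold GSys.cf
  have h1 : (((univ.filter fun i => σ.kd Q i ≠ none).image
      fun i => ((0 : Fin 3), (({i} : Finset (Fin s)), 0)))).card ≤ s := by
    refine le_trans Finset.card_image_le (le_trans (Finset.card_filter_le _ _) ?_)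
    simp
  have h2 : ((σ.S Q).image (fun φ => ((1 : Fin 3), φ))).card ≤ s :=
    le_trans Finset.card_image_le (H.S_card Q)
  have h3 : ((σ.Bf Q).image (fun β => ((2 : Fin 3), β))).card ≤ 2 * s :=
    le_trans Finset.card_image_le (H.B_card Q)
  refine le_trans (Finset.card_union_le _ _) ?_
  refine le_trans (Nat.add_le_add (Finset.card_union_le _ _) h3) ?_
  omega

theorem card_vsH_le (H : GOKH σ om wt R p N B c1 C1 γ η) (e : HE P s R) :
    (vsH σ R p e).card ≤ 4 * s + 1 := by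
  have hp : 0 < p := lt_of_le_of_lt (Nat.zero_le _) H.Rp
  unfold vsH
  refine le_trans (Finset.card_insert_le _ _) (Nat.add_le_add_right ?_ 1)
  refine le_trans Finset.card_image_le (le_trans ?_ (card_cf_le H e.1))
  have hsub : (univ.filter fun v : Fin 4 × Fin p =>
      ∃ u ∈ σ.cf e.1, σ.tt e.1 u (lb e) = v.1 ∧ val u.2 (lb e) % p = v.2) ⊆
      (σ.cf e.1).image (fun u =>
        (σ.tt e.1 u (lb e), (⟨val u.2 (lb e) % p, Nat.mod_lt _ hp⟩ : Fin p))) := by
    intro v hv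
    obtain ⟨u, hu, hu1, hu2⟩ := (Finset.mem_filter.1 hv).2
    refine Finset.mem_image.2 ⟨u, hu, ?_⟩
    exact Prod.ext hu1 (Fin.ext hu2)
  exact le_trans (Finset.card_le_card hsub) Finset.card_image_le

theorem cf_act (H : GOKH σ om wt R p N B c1 C1 γ η) (Q : P) (u : Fin 3 × Frm s)
    (hu : u ∈ σ.cf Q) : u.2.1.Nonempty ∧ ∀ i ∈ u.2.1, σ.kd Q i ≠ none := by
  unfold GSys.cf at hu
  rcases Finset.mem_union.1 hu with hu | hu
  · rcases Finset.mem_union.1 hu with hu | hu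
    · obtain ⟨i, hi, rfl⟩ := Finset.mem_image.1 hu
      refine ⟨Finset.singleton_nonempty i, ?_⟩
      intro j hj
      rw [Finset.mem_singleton.1 hj]
      exact (Finset.mem_filter.1 hi).2
    · obtain ⟨φ, hφ, rfl⟩ := Finset.mem_image.1 hu
      exact ⟨H.S_ne Q φ hφ, H.S_act Q φ hφ⟩
  · obtain ⟨β, hβ, rfl⟩ := Finset.mem_image.1 hu
    have h1 := Finset.mem_filter.1 hβ
    refine ⟨h1.2.1, ?_⟩
    intro i hi
    obtain ⟨g, hg, hgβ⟩ := Finset.mem_biUnion.1 h1.1
    exact H.S_act Q _ (H.G_S Q g hg β hgβ) i (Finset.mem_insert_of_mem hi)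

end Pool.Agent.AME
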