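import Pool.Agent.AME.Hyp

/-!
# General parts theorem: degrees

From the load hypotheses of `GOKH` and `deg_inr_le`.
-/

set_option autoImplicit false
set_option linter.unusedSectionVars false

namespace Pool.Agent.AME

open Finset
open Pool.Agent.MP9a04dc (deg codeg Good)
open Pool.Agent.AMA (Frm val HE HV lb)

variable {P K : Type} [Fintype P] [DecidableEq P] [DecidableEq K] {Md : Type} [Fintype Md] {s : ℕ}
  {σ : GSys P K s} {om : Md → ℝ} {wt : K → Md → ℕ → ℝ} {R p N B : ℕ} {c1 C1 γ η : ℝ}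

omit [Fintype P] [DecidableEq P] in
private theorem Loads_cf_zero (Q : P) : (σ.cf Q).filter (fun u => u.1 = 0) =
    (univ.filter fun i => σ.kd Q i ≠ none).image
      (fun i => ((0 : Fin 3), (({i} : Finset (Fin s)), (0 : ℕ)))) := by
  ext u
  simp only [mem_filter, GSys.cf, mem_union, mem_image, mem_univ, true_and]
  constructor
  · rintro ⟨(⟨i, hi, rfl⟩ | ⟨φ, hφ, rfl⟩) | ⟨β, hβ, rfl⟩, h0⟩
    · exact ⟨i, hi, rfl⟩
    · exact absurd (show (1 : Fin 3) = 0 from h0) (by decide)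
    · exact absurd (show (2 : Fin 3) = 0 from h0) (by decide)
  · rintro ⟨i, hi, rfl⟩
    exact ⟨Or.inl (Or.inl ⟨i, hi, rfl⟩), rfl⟩

omit [Fintype P] [DecidableEq P] in
private theorem Loads_cf_one (Q : P) : (σ.cf Q).filter (fun u => u.1 = 1) =
    (σ.S Q).image (fun φ => ((1 : Fin 3), φ)) := by
  ext u
  simp only [mem_filter, GSys.cf, mem_union, mem_image, mem_univ, true_and]
  constructor
  · rintro ⟨(⟨i, hi, rfl⟩ | ⟨φ, hφ, rfl⟩) | ⟨β, hβ, rfl⟩, h0⟩
    · exact absurd (show (0 : Fin 3) = 1 from h0) (by decide)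
    · exact ⟨φ, hφ, rfl⟩
    · exact absurd (show (2 : Fin 3) = 1 from h0) (by decide)
  · rintro ⟨φ, hφ, rfl⟩
    exact ⟨Or.inl (Or.inr ⟨φ, hφ, rfl⟩), rfl⟩

omit [Fintype P] [DecidableEq P] in
private theorem Loads_cf_two (Q : P) : (σ.cf Q).filter (fun u => u.1 = 2) =
    (σ.Bf Q).image (fun β => ((2 : Fin 3), β)) := by
  ext u
  simp only [mem_filter, GSys.cf, mem_union, mem_image, mem_univ, true_and]
  constructor
  · rintro ⟨(⟨i, hi, rfl⟩ | ⟨φ, hφ, rfl⟩) | ⟨β, hβ, rfl⟩, h0⟩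
    · exact absurd (show (0 : Fin 3) = 2 from h0) (by decide)
    · exact absurd (show (1 : Fin 3) = 2 from h0) (by decide)
    · exact ⟨β, hβ, rfl⟩
  · rintro ⟨β, hβ, rfl⟩
    exact ⟨Or.inr ⟨β, hβ, rfl⟩, rfl⟩

theorem deg_label_le (H : GOKH σ om wt R p N B c1 C1 γ η) (a : Fin p) :
    deg (vsH σ R p) (wH σ om wt R p) (Sum.inr (0, a)) ≤ 1 := by
  classical
  refine (deg_inr_le (σ := σ) H.law 0 a).trans ?_
  refine le_trans (Finset.sum_le_sum fun Q _ => ?_) (H.labload (a : ℕ))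
  have hcl : cl (0 : Fin 4) = 0 := rfl
  rw [hcl, Loads_cf_zero, Finset.sum_image (by
    intro i _ j _ hij
    simpa using hij)]
  refine Finset.sum_le_sum fun i _ => ?_
  refine Pr_mono H.law fun x hx hA => ?_
  have h4 : val (({i} : Finset (Fin s)), (0 : ℕ)) x = x i := by simp [AMA.val]
  have h5 : x i < p := lt_of_le_of_lt (hx i) H.Rp
  have h6 : val (({i} : Finset (Fin s)), (0 : ℕ)) x % p = (a : ℕ) := hA.2
  rw [h4, Nat.mod_eq_of_lt h5] at h6
  exact h6

theorem deg_sum_le (H : GOKH σ om wt R p N B c1 C1 γ η) (t : Fin 4) (ht : t = 1 ∨ t = 2)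
    (a : Fin p) : deg (vsH σ R p) (wH σ om wt R p) (Sum.inr (t, a)) ≤ 1 - γ := by
  classical
  refine (deg_inr_le (σ := σ) H.law t a).trans ?_
  refine le_trans (Finset.sum_le_sum fun Q _ => ?_) (H.sumload (decide (t = 2)) (a : ℕ))
  have hcl : cl t = 1 := by
    rcases ht with rfl | rfl <;> rfl
  rw [hcl, Loads_cf_one, Finset.sum_image (by
    intro φ _ ψ _ hij
    simpa using hij)]
  refine Finset.sum_le_sum fun φ _ => ?_
  refine Pr_mono H.law fun x _ hA => ⟨?_, hA.2⟩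
  have h1 : σ.tt Q ((1 : Fin 3), φ) x = t := hA.1
  have h2 : σ.tt Q ((1 : Fin 3), φ) x = if σ.tg Q φ x then 2 else 1 := rfl
  rw [h2] at h1
  rcases ht with rfl | rfl
  · cases hb : σ.tg Q φ x with
    | true =>
      rw [hb] at h1
      exact absurd h1 (by decide)
    | false => decide
  · cases hb : σ.tg Q φ x with
    | true => decide
    | false =>
      rw [hb] at h1
      exact absurd h1 (by decide)

theorem deg_B_le (H : GOKH σ om wt R p N B c1 C1 γ η) (a : Fin p) :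
    deg (vsH σ R p) (wH σ om wt R p) (Sum.inr (3, a)) ≤ 1 := by
  classical
  refine (deg_inr_le (σ := σ) H.law 3 a).trans ?_
  refine le_trans (Finset.sum_le_sum fun Q _ => ?_) (H.bload (a : ℕ))
  have hcl : cl (3 : Fin 4) = 2 := rfl
  rw [hcl, Loads_cf_two, Finset.sum_image (by
    intro φ _ ψ _ hij
    simpa using hij)]
  refine Finset.sum_le_sum fun β _ => ?_
  exact Pr_mono H.law fun x _ hA => hA.2

theorem deg_le_one (H : GOKH σ om wt R p N B c1 C1 γ η) (hγ : 0 ≤ γ) (v : HV P p) :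
    deg (vsH σ R p) (wH σ om wt R p) v ≤ 1 := by
  rcases v with Q | ⟨t, a⟩
  · exact deg_inl_le H.law Q
  · have h4 : t = 0 ∨ t = 1 ∨ t = 2 ∨ t = 3 := by
      revert t
      decide
    rcases h4 with rfl | rfl | rfl | rfl
    · exact deg_label_le H a
    · exact (deg_sum_le H 1 (Or.inl rfl) a).trans (by linarith)
    · exact (deg_sum_le H 2 (Or.inr rfl) a).trans (by linarith)
    · exact deg_B_le H a

end Pool.Agent.AME
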