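import Pool.Agent.AME.Codeg
import Pool.Agent.AME.Tests

/-!
# General parts theorem

Adaptation of `AMA/Parts.lean`, with `machineQ` (`q = 8`).
-/

set_option autoImplicit false
set_option linter.unusedSectionVars false

namespace Pool.Agent.AME

open Finset
open Pool.Agent.MP9a04dc (deg codeg Good)
open Pool.Agent.AMA (Frm val HE HV lb)

/-- polynomial against exponential: the number of tests -/
theorem Parts_card_TJ_le (s : ℕ) (c1 C1 c : ℝ) (hc1 : 0 < c1) (hC1 : 0 < C1) (hc : 0 < c) :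
    ∃ N0 : ℕ, ∀ p N : ℕ, N0 ≤ N → (p : ℝ) ≤ C1 * N →
      (Fintype.card (TJ s p) : ℝ) ≤ Real.exp (c * (c1 * N)) := by
  set q : ℝ := c * c1 with hq
  have hq0 : 0 < q := mul_pos hc hc1
  obtain ⟨N1, hN1⟩ := exists_nat_gt ((2 * s : ℝ) * C1 ^ 3 * (Nat.factorial 4 : ℝ) / q ^ 4)
  refine ⟨N1, fun p N hN hp => ?_⟩
  have hN1' : ((2 * s : ℝ) * C1 ^ 3 * (Nat.factorial 4 : ℝ) / q ^ 4) ≤ N :=
    hN1.le.trans (by exact_mod_cast hN)
  have hN0 : (0 : ℝ) ≤ N := Nat.cast_nonneg _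
  have hp0 : (0 : ℝ) ≤ p := Nat.cast_nonneg _
  have hs0 : (0 : ℝ) ≤ s := Nat.cast_nonneg _
  have hcard : (Fintype.card (TJ s p) : ℝ) = 2 * s * (p : ℝ) ^ 3 := by
    simp only [TJ, Fintype.card_prod, Fintype.card_fin, Fintype.card_bool]
    push_cast
    ring
  have h4 : (Fintype.card (TJ s p) : ℝ) ≤ 2 * s * (C1 * N) ^ 3 := by
    rw [hcard]
    gcongr
  have h5 := Real.pow_div_factorial_le_exp (x := q * N) (by positivity) 4
  have h6 : 2 * s * (C1 * N) ^ 3 ≤ (q * N) ^ 4 / (Nat.factorial 4 : ℝ) := by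
    have hf : (0 : ℝ) < (Nat.factorial 4 : ℝ) := by positivity
    rw [div_le_iff₀ (by positivity)] at hN1'
    rw [le_div_iff₀ hf]
    calc 2 * s * (C1 * N) ^ 3 * (Nat.factorial 4 : ℝ)
        = (2 * s * C1 ^ 3 * (Nat.factorial 4 : ℝ)) * (N : ℝ) ^ 3 := by ring
      _ ≤ (N * q ^ 4) * (N : ℝ) ^ 3 := by gcongr
      _ = (q * N) ^ 4 := by ring
  have h7 : c * (c1 * N) = q * N := by rw [hq]; ring
  rw [h7]
  linarith

section Parts_aux

variable {P K : Type} [Fintype P] [DecidableEq P] [DecidableEq K] {Md : Type} [Fintype Md] {s : ℕ}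
  {σ : GSys P K s} {om : Md → ℝ} {wt : K → Md → ℕ → ℝ} {R p N B : ℕ} {c1 C1 γ η : ℝ}
  {GW : Bool → P → Fin s → (Fin s → ℕ) → Prop}

theorem Parts_adm {e : HE P s R} (he : 0 < wH σ om wt R p e) :
    σ.Adm p e.1 (lb e) ∧ 0 < pr om wt R (σ.kd e.1) e.2 := by
  unfold wH at he
  split_ifs at he with h1
  · exact ⟨h1, he⟩
  · exact absurd he (lt_irrefl _)

theorem Parts_card_V : (Fintype.card (HV P p) : ℝ) = Fintype.card P + 4 * (p : ℝ) := by
  simp only [HV, Fintype.card_sum, Fintype.card_prod, Fintype.card_fin]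
  push_cast
  ring

theorem Parts_card_V_le (H : GOKH σ om wt R p N B c1 C1 γ η) :
    (Fintype.card (HV P p) : ℝ) ≤ (1 + 4 * C1) * N := by
  rw [Parts_card_V]
  have h1 : (Fintype.card P : ℝ) ≤ N := by exact_mod_cast H.cardP
  have h2 := H.pN
  linarith

theorem Parts_nonempty_Md (H : GOKH σ om wt R p N B c1 C1 γ η) : Nonempty Md := by
  by_contra hcon
  rw [not_nonempty_iff] at hcon
  have h1 := H.law.om_sum
  rw [Fintype.sum_empty] at h1
  exact zero_ne_one h1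

theorem Parts_le_card_V (H : GOKH σ om wt R p N B c1 C1 γ η) (hN : 0 < c1 * N) (k : K) :
    c1 * N ≤ (Fintype.card (HV P p) : ℝ) := by
  obtain ⟨md⟩ := Parts_nonempty_Md H
  rw [Parts_card_V]
  have h1 : (0 : ℝ) ≤ Fintype.card P := Nat.cast_nonneg _
  have h2 := H.law.wt_sum k md
  have h3 : ∑ y : Fin (R + 1), wt k md (y : ℕ) ≤ R * (1 / (c1 * N)) := by
    rw [Fin.sum_univ_succ]
    have h4 : wt k md ((0 : Fin (R + 1)) : ℕ) = 0 := H.law.wt_zero k md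
    rw [h4, zero_add]
    calc ∑ i : Fin R, wt k md ((i.succ : Fin (R + 1)) : ℕ) ≤ ∑ _i : Fin R, (1 / (c1 * N)) :=
          sum_le_sum fun i _ => H.law.wt_le k md _
      _ = R * (1 / (c1 * N)) := by
          rw [sum_const, card_univ, Fintype.card_fin, nsmul_eq_mul]
  rw [h2, mul_one_div, le_div_iff₀ hN, one_mul] at h3
  have h5 : (R : ℝ) ≤ p := by exact_mod_cast H.Rp.le
  have h7 : (0 : ℝ) ≤ p := Nat.cast_nonneg _
  linarith

theorem Parts_sum_wH (H : GOKH σ om wt R p N B c1 C1 γ η) (hN : 0 < c1 * N) :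
    (Fintype.card P : ℝ) - (16 * s ^ 2 / c1 + B + η * N) ≤ ∑ e : HE P s R, wH σ om wt R p e := by
  classical
  have h1 := sum_wH_filter_ge H hN (fun _ _ => True)
  have h2 : ∀ Q, Pr om wt R (σ.kd Q) (fun _ => True) = 1 := fun Q => Pr_true H.law
  simp only [h2, sum_const, card_univ, nsmul_eq_mul, mul_one, filter_true] at h1
  exact h1

theorem Parts_GOK_mod {T : Bool → Finset ℕ} {Q : P} {x : Fin s → ℕ} {y π1 π2 : ℕ}
    {g : Fin s × Finset (Frm s)} (h : GOK σ p T Q x (y % p) (π1 % p) (π2 % p) g) :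
    GOK σ p T Q x y π1 π2 g := by
  obtain ⟨h1, h2, h3, h4, h5⟩ := h
  simp only [Nat.add_mod_mod, Nat.mod_add_mod] at h2 h4 h5
  exact ⟨h1, h2, h3, h4, h5⟩

/-- the tag in the hypergraph of a Boolean tag -/
def Parts_tb (t : Bool) : Fin 4 := if t then 2 else 1

theorem Parts_tt_sum (Q : P) (φ : Frm s) (x : Fin s → ℕ) :
    σ.tt Q (1, φ) x = Parts_tb (σ.tg Q φ x) := by
  unfold GSys.tt Parts_tb
  rw [if_neg (by decide : ¬ ((1 : Fin 3) = 0)), if_pos rfl]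

theorem Parts_tb_or (t : Bool) : Parts_tb t = 1 ∨ Parts_tb t = 2 := by
  cases t
  · exact Or.inl rfl
  · exact Or.inr rfl

open Classical in
theorem Parts_extract (H : GOKH σ om wt R p N B c1 C1 γ η)
    (T' : Finset (HV P p)) (M : Finset (HE P s R))
    (hpos : ∀ e ∈ M, 0 < wH σ om wt R p e)
    (hdisj : ∀ e ∈ M, ∀ f ∈ M, e ≠ f → Disjoint (vsH σ R p e) (vsH σ R p f))
    (hMT : ∀ e ∈ M, Disjoint (vsH σ R p e) T') :
    ∃ (T : Bool → Finset ℕ) (Pm : Finset P) (x : P → Fin s → ℕ), Pm.card = M.card ∧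
        (∀ Q ∈ Pm, ∃ md, 0 < om md ∧ ∀ i k, σ.kd Q i = some k → 0 < wt k md (x Q i)) ∧
        (∀ Q ∈ Pm, σ.Ex Q (x Q)) ∧
        (∀ Q ∈ Pm, ∀ Q' ∈ Pm, ∀ u ∈ σ.cf Q, ∀ v ∈ σ.cf Q', σ.tt Q u (x Q) = σ.tt Q' v (x Q') →
          val u.2 (x Q) % p = val v.2 (x Q') % p → Q = Q' ∧ u = v) ∧
        (∀ Q ∈ Pm, ∀ φ ∈ σ.S Q, val φ (x Q) % p ∉ T (σ.tg Q φ (x Q))) ∧
        (∀ t, ∀ a ∈ T t, a < p) ∧
        ∀ (j : Bool) (y π1 π2 : Fin p) (k : Fin s),
          ((M ∩ tA σ GW R p (j, y, π1, π2, k)).filter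
            (fun e => tP σ R p (j, y, π1, π2, k) e ⊆ T')).card ≤
          ∑ Q ∈ Pm, ((σ.Gd Q).filter
            (fun g => (GOK σ p T Q (x Q) y π1 π2 g ∧ GW j Q g.1 (x Q)) ∧ g.1 = k)).card := by
  have hp0 : 0 < p := lt_of_le_of_lt (Nat.zero_le _) H.Rp
  -- parts of different hyperedges are different
  have hfst : ∀ e ∈ M, ∀ f ∈ M, e.1 = f.1 → e = f := by
    intro e he f hf hef
    by_contra hne
    have h1 := hdisj e he f hf hne
    rw [disjoint_left] at h1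
    exact h1 (mem_vsH_inl.2 hef) (mem_vsH_inl.2 rfl)
  set T : Bool → Finset ℕ := fun t => ((univ : Finset (Fin p)).filter
    (fun b => (Sum.inr (Parts_tb t, b) : HV P p) ∈ T')).image
    (fun b : Fin p => (b : ℕ)) with hT
  have memT : ∀ (t : Bool) (b : Fin p), (b : ℕ) ∈ T t ↔
      (Sum.inr (Parts_tb t, b) : HV P p) ∈ T' := by
    intro t b
    rw [hT, mem_image]
    constructor
    · rintro ⟨b', hb', hbb⟩
      have : b' = b := Fin.ext hbb
      rw [← this]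
      exact (mem_filter.1 hb').2
    · intro hb
      exact ⟨b, mem_filter.2 ⟨mem_univ _, hb⟩, rfl⟩
  set x : P → Fin s → ℕ := fun Q => if hQ : ∃ e ∈ M, e.1 = Q then lb hQ.choose else fun _ => 0
    with hx
  have hxe : ∀ e ∈ M, x e.1 = lb e := by
    intro e he
    have hQ : ∃ e' ∈ M, e'.1 = e.1 := ⟨e, he, rfl⟩
    have h1 : x e.1 = lb hQ.choose := dif_pos hQ
    have h2 := hQ.choose_spec
    rw [h1, hfst _ h2.1 e he h2.2]
  refine ⟨T, M.image Prod.fst, x, card_image_of_injOn fun e he f hf hef => hfst e he f hf hef,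
    ?_, ?_, ?_, ?_, ?_, ?_⟩
  · intro Q hQ
    obtain ⟨e, he, rfl⟩ := mem_image.1 hQ
    rw [hxe e he]
    obtain ⟨md, h1, h2, -⟩ := pos_of_pr_pos H.law e.2 (Parts_adm (hpos e he)).2
    exact ⟨md, h1, fun i k hk => h2 i k hk⟩
  · intro Q hQ
    obtain ⟨e, he, rfl⟩ := mem_image.1 hQ
    rw [hxe e he]
    exact (Parts_adm (hpos e he)).1.2
  · intro Q hQ Q' hQ' u hu v hv huv hval
    obtain ⟨e, he, rfl⟩ := mem_image.1 hQ
    obtain ⟨f, hf, rfl⟩ := mem_image.1 hQ'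
    rw [hxe e he, hxe f hf] at hval huv
    by_cases hef : e = f
    · subst hef
      have h5 : u.1 = v.1 := by
        rw [← cl_tt (σ := σ) e.1 u (lb e), ← cl_tt (σ := σ) e.1 v (lb e), huv]
      exact ⟨rfl, (Parts_adm (hpos e he)).1.1 u hu v hv h5 hval⟩
    · exfalso
      have h1 := hdisj e he f hf hef
      rw [disjoint_left] at h1
      refine h1 (a := Sum.inr (σ.tt e.1 u (lb e), ⟨val u.2 (lb e) % p, Nat.mod_lt _ hp0⟩)) ?_ ?_
      · exact mem_vsH_inr.2 ⟨u, hu, rfl, rfl⟩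
      · exact mem_vsH_inr.2 ⟨v, hv, huv.symm, hval.symm⟩
  · intro Q hQ φ hφ hmem
    obtain ⟨e, he, rfl⟩ := mem_image.1 hQ
    rw [hxe e he] at hmem
    have hu : ((1 : Fin 3), φ) ∈ σ.cf e.1 := by
      unfold GSys.cf
      rw [mem_union, mem_union]
      exact Or.inl (Or.inr (mem_image.2 ⟨φ, hφ, rfl⟩))
    have h3 := (memT _ ⟨val φ (lb e) % p, Nat.mod_lt _ hp0⟩).1 hmem
    have h1 := hMT e he
    rw [disjoint_left] at h1
    exact h1 (mem_vsH_inr.2 ⟨_, hu, Parts_tt_sum e.1 φ (lb e), rfl⟩) h3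
  · intro t a ha
    obtain ⟨b, -, rfl⟩ := mem_image.1 ha
    exact b.2
  · intro j y π1 π2 k
    set F := (M ∩ tA σ GW R p (j, y, π1, π2, k)).filter
      (fun e => tP σ R p (j, y, π1, π2, k) e ⊆ T') with hF
    have hFM : ∀ e ∈ F, e ∈ M := fun e he => (mem_inter.1 (mem_filter.1 he).1).1
    have hge : ∀ e ∈ F, 1 ≤ ((σ.Gd e.1).filter
        (fun g => (GOK σ p T e.1 (x e.1) y π1 π2 g ∧ GW j e.1 g.1 (x e.1)) ∧ g.1 = k)).card := by
      intro e he
      have heM := hFM e he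
      have heA : TA σ GW p j e.1 y π1 π2 k (lb e) :=
        (mem_filter.1 (mem_inter.1 (mem_filter.1 he).1).2).2
      have heP : tP σ R p (j, y, π1, π2, k) e ⊆ T' := (mem_filter.1 he).2
      have hpos' : ∀ (t : Bool) (a : ℕ), a < p → TP σ p e.1 y π1 π2 k (lb e) a → a ∈ T t := by
        intro t a ha hTP
        have h1 : (Sum.inr (Parts_tb t, (⟨a, ha⟩ : Fin p)) : HV P p) ∈
            tP σ R p (j, y, π1, π2, k) e := by
          unfold tP
          exact mem_image.2 ⟨(Parts_tb t, ⟨a, ha⟩),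
            mem_filter.2 ⟨mem_univ _, Parts_tb_or t, hTP⟩, rfl⟩
        exact (memT t ⟨a, ha⟩).2 (heP h1)
      obtain ⟨g, hg, hgk, hGW, hdis, hne, hsum⟩ := heA
      refine card_pos.2 ⟨g, mem_filter.2 ⟨hg, ?_, hgk⟩⟩
      rw [hxe e heM]
      subst hgk
      exact ⟨⟨hg, fun t β hβ => hpos' t _ (Nat.mod_lt _ hp0) (Or.inl ⟨g, hg, rfl, β, hβ, rfl⟩),
        hdis, fun t => ⟨hpos' t _ (Nat.mod_lt _ hp0) (Or.inr (Or.inl rfl)),
        hpos' t _ (Nat.mod_lt _ hp0) (Or.inr (Or.inr rfl))⟩, hne⟩, hGW⟩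
    calc F.card = ∑ e ∈ F, 1 := by simp
      _ ≤ ∑ e ∈ F, ((σ.Gd e.1).filter
          (fun g => (GOK σ p T e.1 (x e.1) y π1 π2 g ∧ GW j e.1 g.1 (x e.1)) ∧ g.1 = k)).card :=
          sum_le_sum hge
      _ = ∑ Q ∈ F.image Prod.fst, ((σ.Gd Q).filter
          (fun g => (GOK σ p T Q (x Q) y π1 π2 g ∧ GW j Q g.1 (x Q)) ∧ g.1 = k)).card := by
          rw [sum_image]
          intro e he f hf hef
          exact hfst e (hFM e he) f (hFM f hf) hef
      _ ≤ _ := sum_le_sum_of_subset (image_subset_image fun e he => hFM e he)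

open Classical in
/-- sum over the slots of the weights of the parts with a gadget -/
theorem Parts_sum_G (H : GOKH σ om wt R p N B c1 C1 γ η) (f : P → Fin s → ℝ) :
    ∑ k : Fin s, ∑ Q ∈ univ.filter (fun Q => ∃ g ∈ σ.Gd Q, g.1 = k), f Q k =
      ∑ Q, ∑ g ∈ σ.Gd Q, f Q g.1 := by
  have h1 : ∀ Q, ∑ g ∈ σ.Gd Q, f Q g.1 =
      ∑ k : Fin s, (if ∃ g ∈ σ.Gd Q, g.1 = k then f Q k else 0) := by
    intro Q
    rw [← sum_filter]
    have h2 : (univ.filter fun k : Fin s => ∃ g ∈ σ.Gd Q, g.1 = k) = (σ.Gd Q).image Prod.fst := by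
      ext k
      simp
    rw [h2, sum_image]
    intro g hg g' hg' hgg
    exact H.G_uniq Q g hg g' hg' hgg
  rw [sum_congr rfl fun Q _ => h1 Q, sum_comm]
  refine sum_congr rfl fun k _ => ?_
  rw [← sum_filter]

open Classical in
/-- no labels at all -/
theorem Parts_empty (H : GOKH σ om wt R p N B c1 C1 γ η) (hK : IsEmpty K) {δ : ℝ} (hδ : 0 ≤ δ)
    (hη : 0 ≤ η) :
      ∃ (T : Bool → Finset ℕ) (Pm : Finset P) (x : P → Fin s → ℕ),
        ((univ \ Pm).card : ℝ) ≤ (η + δ) * N ∧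
        (∀ Q ∈ Pm, ∃ md, 0 < om md ∧ ∀ i k, σ.kd Q i = some k → 0 < wt k md (x Q i)) ∧
        (∀ Q ∈ Pm, σ.Ex Q (x Q)) ∧
        (∀ Q ∈ Pm, ∀ Q' ∈ Pm, ∀ u ∈ σ.cf Q, ∀ v ∈ σ.cf Q', σ.tt Q u (x Q) = σ.tt Q' v (x Q') →
          val u.2 (x Q) % p = val v.2 (x Q') % p → Q = Q' ∧ u = v) ∧
        (∀ Q ∈ Pm, ∀ φ ∈ σ.S Q, val φ (x Q) % p ∉ T (σ.tg Q φ (x Q))) ∧
        (∀ t, ∀ a ∈ T t, a < p) ∧
        ∀ (j : Bool) (y π1 π2 : ℕ),
          (min γ (1 / 2)) ^ 8 * (∑ Q, ∑ g ∈ σ.Gd Q, Pr om wt R (σ.kd Q) (GW j Q g.1)) -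
              (s * η + δ) * N ≤
            ∑ Q ∈ Pm, (((σ.Gd Q).filter
              (fun g => GOK σ p T Q (x Q) y π1 π2 g ∧ GW j Q g.1 (x Q))).card : ℝ) := by
  have hkd : ∀ Q i, σ.kd Q i = none := by
    intro Q i
    rcases h : σ.kd Q i with _ | k
    · rfl
    · exact hK.elim k
  have hG : ∀ Q, σ.Gd Q = ∅ := by
    intro Q
    rw [eq_empty_iff_forall_notMem]
    intro g hg
    exact H.G_act Q g hg (hkd Q g.1)
  have hcf : ∀ Q, σ.cf Q = ∅ := by
    intro Q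
    rw [eq_empty_iff_forall_notMem]
    intro u hu
    obtain ⟨⟨i, hi⟩, h2⟩ := cf_act H Q u hu
    exact h2 i hi (hkd Q i)
  have hS : ∀ Q, σ.S Q = ∅ := by
    intro Q
    rw [eq_empty_iff_forall_notMem]
    intro φ hφ
    obtain ⟨i, hi⟩ := H.S_ne Q φ hφ
    exact H.S_act Q φ hφ i hi (hkd Q i)
  have hN0 : (0 : ℝ) ≤ N := Nat.cast_nonneg _
  -- the probability of a false extra condition
  have hPr : ∀ Q, ¬ σ.Ex Q (fun _ => 0) → Pr om wt R (σ.kd Q) (fun x => ¬ σ.Ex Q x) = 1 := by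
    intro Q hQ
    have h1 : Pr om wt R (σ.kd Q) (fun x => ¬ σ.Ex Q x) =
        Pr om wt R (σ.kd Q) (fun _ => True) := by
      unfold Pr
      refine sum_congr rfl fun x _ => ?_
      by_cases hx : (fun i => (x i : ℕ)) = fun _ : Fin s => 0
      · rw [hx, if_pos hQ, if_pos trivial]
      · have h2 : pr om wt R (σ.kd Q) x = 0 := by
          refine le_antisymm (not_lt.1 fun h3 => ?_) (pr_nonneg H.law x)
          obtain ⟨md, -, -, h4⟩ := pos_of_pr_pos H.law x h3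
          exact hx (funext fun i => h4 i (hkd Q i))
        rw [h2]
        simp
    rw [h1, Pr_true H.law]
  refine ⟨fun _ => ∅, univ.filter fun Q => σ.Ex Q (fun _ => 0), fun _ _ => 0, ?_, ?_, ?_, ?_, ?_,
    ?_, ?_⟩
  · have h1 : (univ \ univ.filter fun Q => σ.Ex Q (fun _ => 0)) =
        univ.filter fun Q => ¬ σ.Ex Q (fun _ => 0) := by
      ext Q
      simp
    rw [h1]
    have h2 : (((univ.filter fun Q => ¬ σ.Ex Q (fun _ => 0)).card : ℕ) : ℝ) ≤
        ∑ Q, Pr om wt R (σ.kd Q) (fun x => ¬ σ.Ex Q x) := by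
      calc (((univ.filter fun Q => ¬ σ.Ex Q (fun _ => 0)).card : ℕ) : ℝ)
          = ∑ Q ∈ univ.filter (fun Q => ¬ σ.Ex Q (fun _ => 0)), (1 : ℝ) := by
            rw [sum_const, nsmul_eq_mul, mul_one]
        _ = ∑ Q ∈ univ.filter (fun Q => ¬ σ.Ex Q (fun _ => 0)),
              Pr om wt R (σ.kd Q) (fun x => ¬ σ.Ex Q x) :=
            sum_congr rfl fun Q hQ => (hPr Q (mem_filter.1 hQ).2).symm
        _ ≤ _ := sum_le_sum_of_subset_of_nonneg (filter_subset _ _)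
            fun Q _ _ => Pr_nonneg H.law _
    have h3 := H.exload
    nlinarith
  · intro Q _
    have h1 : ∃ md, 0 < om md := by
      by_contra hcon
      push_neg at hcon
      have h2 : ∑ md, om md ≤ 0 := sum_nonpos fun md _ => hcon md
      rw [H.law.om_sum] at h2
      linarith
    obtain ⟨md, hmd⟩ := h1
    exact ⟨md, hmd, fun i k _ => (hK.elim k)⟩
  · intro Q hQ
    exact (mem_filter.1 hQ).2
  · intro Q _ Q' _ u hu
    rw [hcf Q] at hu
    exact absurd hu (notMem_empty _)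
  · intro Q _ φ hφ
    rw [hS Q] at hφ
    exact absurd hφ (notMem_empty _)
  · intro t a ha
    exact absurd ha (notMem_empty _)
  · intro j y π1 π2
    simp only [hG, sum_empty, filter_empty, card_empty, Nat.cast_zero, sum_const_zero, mul_zero]
    have h1 : (0 : ℝ) ≤ (s * η + δ) * N := by positivity
    linarith

end Parts_aux

open Classical in
/-- **General parts theorem.** -/
theorem gparts (s B : ℕ) (c1 C1 γ δ : ℝ) (hc1 : 0 < c1) (hC1 : 0 < C1) (hγ : 0 < γ)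
    (hδ : 0 < δ) :
    ∃ N0 : ℕ, ∀ (P K Md : Type) [Fintype P] [DecidableEq P] [DecidableEq K] [Fintype Md]
      (σ : GSys P K s) (om : Md → ℝ) (wt : K → Md → ℕ → ℝ) (R p N : ℕ) (η : ℝ)
      (GW : Bool → P → Fin s → (Fin s → ℕ) → Prop), N0 ≤ N → 0 ≤ η →
      GOKH σ om wt R p N B c1 C1 γ η →
      ∃ (T : Bool → Finset ℕ) (Pm : Finset P) (x : P → Fin s → ℕ),
        ((univ \ Pm).card : ℝ) ≤ (η + δ) * N ∧
        (∀ Q ∈ Pm, ∃ md, 0 < om md ∧ ∀ i k, σ.kd Q i = some k → 0 < wt k md (x Q i)) ∧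
        (∀ Q ∈ Pm, σ.Ex Q (x Q)) ∧
        (∀ Q ∈ Pm, ∀ Q' ∈ Pm, ∀ u ∈ σ.cf Q, ∀ v ∈ σ.cf Q', σ.tt Q u (x Q) = σ.tt Q' v (x Q') →
          val u.2 (x Q) % p = val v.2 (x Q') % p → Q = Q' ∧ u = v) ∧
        (∀ Q ∈ Pm, ∀ φ ∈ σ.S Q, val φ (x Q) % p ∉ T (σ.tg Q φ (x Q))) ∧
        (∀ t, ∀ a ∈ T t, a < p) ∧
        ∀ (j : Bool) (y π1 π2 : ℕ),
          (min γ (1 / 2)) ^ 8 * (∑ Q, ∑ g ∈ σ.Gd Q, Pr om wt R (σ.kd Q) (GW j Q g.1)) -
              (s * η + δ) * N ≤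
            ∑ Q ∈ Pm, (((σ.Gd Q).filter
              (fun g => GOK σ p T Q (x Q) y π1 π2 g ∧ GW j Q g.1 (x Q))).card : ℝ) := by
  set g8 : ℝ := (min γ (1 / 2)) ^ 8 with hg8
  have hm0 : 0 < min γ (1 / 2) := lt_min hγ (by norm_num)
  have hg80 : 0 ≤ g8 := by positivity
  have hg81 : g8 ≤ 1 := pow_le_one₀ hm0.le ((min_le_right _ _).trans (by norm_num))
  set Kv : ℝ := 1 + 4 * C1 with hKv
  have hKv0 : 0 < Kv := by positivity
  set d : ℝ := min (δ / (2 * Kv)) (δ / (2 * ((s : ℝ) + 1) * Kv)) with hd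
  have hs0 : (0 : ℝ) ≤ s := Nat.cast_nonneg _
  have hB0 : (0 : ℝ) ≤ B := Nat.cast_nonneg _
  have hd0 : 0 < d := lt_min (by positivity) (by positivity)
  have hC : 0 < 4 / c1 + (B : ℝ) + 1 := by positivity
  obtain ⟨κ, hκ, c, hc, n0, hmach⟩ := machineQ 8 (4 * s + 1) hC hγ hd0
  obtain ⟨Ng, hgood⟩ := good_wH s B c1 κ hc1 hκ
  obtain ⟨Nj, hJ⟩ := Parts_card_TJ_le s c1 C1 c hc1 hC1 hc
  set K1 : ℝ := 16 * (s : ℝ) ^ 2 / c1 + B with hK1
  have hK10 : 0 ≤ K1 := by positivity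
  set K2 : ℝ := (9 + 4 * (s : ℝ)) / c1 + 5 * B + K1 with hK2
  have hK20 : 0 ≤ K2 := by positivity
  obtain ⟨Na, hNa⟩ := exists_nat_gt (n0 / c1)
  obtain ⟨Nb, hNb⟩ := exists_nat_gt (K1 / (δ / 2))
  obtain ⟨Nc, hNc⟩ := exists_nat_gt (s * K2 / (δ / 2))
  refine ⟨Ng + Nj + Na + Nb + Nc + 4, ?_⟩
  intro P K Md _ _ _ _ σ om wt R p N η GW hN hη H
  by_cases hK : IsEmpty K
  · exact Parts_empty H hK hδ.le hη
  rw [not_isEmpty_iff] at hK
  obtain ⟨k0⟩ := hK
  have hN1 : (1 : ℝ) ≤ N := by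
    have : 1 ≤ N := by omega
    exact_mod_cast this
  have hN0 : (0 : ℝ) ≤ N := by linarith
  have hcN : 0 < c1 * N := by positivity
  have hNa' : (n0 : ℝ) ≤ c1 * N := by
    have h1 : n0 / c1 ≤ (N : ℝ) := hNa.le.trans (by
      have : Na ≤ N := by omega
      exact_mod_cast this)
    rw [div_le_iff₀ hc1] at h1
    linarith
  have hNb' : K1 ≤ δ / 2 * N := by
    have h1 : K1 / (δ / 2) ≤ (N : ℝ) := hNb.le.trans (by
      have : Nb ≤ N := by omega
      exact_mod_cast this)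
    rw [div_le_iff₀ (by positivity)] at h1
    linarith
  have hNc' : s * K2 ≤ δ / 2 * N := by
    have h1 : s * K2 / (δ / 2) ≤ (N : ℝ) := hNc.le.trans (by
      have : Nc ≤ N := by omega
      exact_mod_cast this)
    rw [div_le_iff₀ (by positivity)] at h1
    linarith
  have hVle : (Fintype.card (HV P p) : ℝ) ≤ Kv * N := Parts_card_V_le H
  have hVge : c1 * N ≤ (Fintype.card (HV P p) : ℝ) := Parts_le_card_V H hcN k0
  have hdV : d * (Fintype.card (HV P p) : ℝ) ≤ d * (Kv * N) :=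
    mul_le_mul_of_nonneg_left hVle hd0.le
  have hamp : AMPlusQ (vsH σ R p) (wH σ om wt R p) (OmH P p) (tA σ GW R p)
      (tP σ R p) 8 (4 * s + 1) (4 / c1 + (B : ℝ) + 1) γ κ := by
    refine ⟨hgood P K Md σ om wt R p N C1 γ η (by omega) hγ.le H, ?_, fun j e _ => tP_sub j e,
      fun j e he => tP_card H j e he, fun j e he => tP_disj H j e he, fun j v => ?_⟩
    · intro v hv
      unfold OmH at hv
      obtain ⟨⟨t, a⟩, hta, rfl⟩ := mem_image.1 hv
      have ht : t = 1 ∨ t = 2 := (mem_filter.1 hta).2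
      exact deg_sum_le H t ht a
    · have := tP_codeg (GW := GW) H hcN j v
      linarith
  obtain ⟨T', hT', M, hpos, hdisj, hMT, hcard, htest⟩ := hmach (HE P s R) (HV P p) (TJ s p)
    (vsH σ R p) (wH σ om wt R p) (OmH P p) (tA σ GW R p) (tP σ R p) hamp
    ((hJ p N (by omega) H.pN).trans (Real.exp_le_exp.2 (mul_le_mul_of_nonneg_left hVge hc.le)))
    (by exact_mod_cast hNa'.trans hVge)
  obtain ⟨T, Pm, x, hPm, h2, h2', h3, h4, h5, h6⟩ :=
    Parts_extract (GW := GW) H T' M hpos hdisj hMT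
  refine ⟨T, Pm, x, ?_, h2, h2', h3, h4, h5, ?_⟩
  · have e1 : ((univ \ Pm).card : ℝ) = (Fintype.card P : ℝ) - M.card := by
      rw [card_sdiff_of_subset (subset_univ Pm), card_univ, ← hPm,
        Nat.cast_sub (card_le_univ Pm)]
    have e2 := Parts_sum_wH H hcN
    have e3 : d * (Kv * N) ≤ δ / 2 * N := by
      have e4 : d ≤ δ / (2 * Kv) := min_le_left _ _
      rw [le_div_iff₀ (by positivity)] at e4
      have e5 : d * (Kv * N) = d * (2 * Kv) * (N / 2) := by ring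
      rw [e5]
      calc d * (2 * Kv) * (N / 2) ≤ δ * (N / 2) := mul_le_mul_of_nonneg_right e4 (by linarith)
        _ = δ / 2 * N := by ring
    rw [e1]
    linarith
  · intro j y π1 π2
    have hp0 : 0 < p := lt_of_le_of_lt (Nat.zero_le _) H.Rp
    set y' : Fin p := ⟨y % p, Nat.mod_lt _ hp0⟩ with hy'
    set p1 : Fin p := ⟨π1 % p, Nat.mod_lt _ hp0⟩ with hp1
    set p2 : Fin p := ⟨π2 % p, Nat.mod_lt _ hp0⟩ with hp2
    have e0 : ∀ k : Fin s, g8 * (∑ Q ∈ univ.filter (fun Q => ∃ g ∈ σ.Gd Q, g.1 = k),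
        Pr om wt R (σ.kd Q) (GW j Q k) - (K2 + η * N)) - d * (Kv * N) ≤
        ∑ Q ∈ Pm, (((σ.Gd Q).filter
            (fun g => (GOK σ p T Q (x Q) y π1 π2 g ∧ GW j Q g.1 (x Q)) ∧ g.1 = k)).card : ℝ) := by
      intro k
      have f1 := tA_weight (GW := GW) H hcN (j, y', p1, p2, k)
      have f2 := htest (j, y', p1, p2, k)
      have f3 := h6 j y' p1 p2 k
      rw [← hg8] at f2
      have f5 : g8 * (∑ Q ∈ univ.filter (fun Q => ∃ g ∈ σ.Gd Q, g.1 = k),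
          Pr om wt R (σ.kd Q) (GW j Q k) - (K2 + η * N)) ≤
          g8 * ∑ e ∈ tA σ GW R p (j, y', p1, p2, k), wH σ om wt R p e := by
        refine mul_le_mul_of_nonneg_left (le_trans ?_ f1) hg80
        apply le_of_eq
        rw [hK2, hK1]
        ring
      have f6 : (((M ∩ tA σ GW R p (j, y', p1, p2, k)).filter
          (fun e => tP σ R p (j, y', p1, p2, k) e ⊆ T')).card : ℝ) ≤
          ∑ Q ∈ Pm, (((σ.Gd Q).filter
            (fun g => (GOK σ p T Q (x Q) y π1 π2 g ∧ GW j Q g.1 (x Q)) ∧ g.1 = k)).card : ℝ) := by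
        have f7 : ((M ∩ tA σ GW R p (j, y', p1, p2, k)).filter
          (fun e => tP σ R p (j, y', p1, p2, k) e ⊆ T')).card ≤
            ∑ Q ∈ Pm, ((σ.Gd Q).filter
              (fun g => (GOK σ p T Q (x Q) y π1 π2 g ∧ GW j Q g.1 (x Q)) ∧ g.1 = k)).card :=
          f3.trans (sum_le_sum fun Q _ => card_le_card fun g hg => by
            obtain ⟨g1, ⟨g2, g4⟩, g3⟩ := mem_filter.1 hg
            exact mem_filter.2 ⟨g1, ⟨Parts_GOK_mod g2, g4⟩, g3⟩)
        exact_mod_cast f7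
      linarith
    have e1 : ∑ k : Fin s, ∑ Q ∈ Pm, (((σ.Gd Q).filter
            (fun g => (GOK σ p T Q (x Q) y π1 π2 g ∧ GW j Q g.1 (x Q)) ∧ g.1 = k)).card : ℝ) =
          ∑ Q ∈ Pm, (((σ.Gd Q).filter
            (fun g => GOK σ p T Q (x Q) y π1 π2 g ∧ GW j Q g.1 (x Q))).card : ℝ) := by
      rw [sum_comm]
      refine sum_congr rfl fun Q _ => ?_
      have f1 := card_eq_sum_card_fiberwise (f := Prod.fst)
        (s := (σ.Gd Q).filter (fun g => GOK σ p T Q (x Q) y π1 π2 g ∧ GW j Q g.1 (x Q)))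
        (t := (univ : Finset (Fin s))) (fun _ _ => mem_univ _)
      rw [f1]
      push_cast
      refine sum_congr rfl fun k _ => ?_
      rw [filter_filter]
    rw [← e1]
    refine le_trans ?_ (sum_le_sum fun k _ => e0 k)
    have e2 := Parts_sum_G H (fun Q k => Pr om wt R (σ.kd Q) (GW j Q k))
    have e3 : ∑ k : Fin s, (g8 * (∑ Q ∈ univ.filter (fun Q => ∃ g ∈ σ.Gd Q, g.1 = k),
        Pr om wt R (σ.kd Q) (GW j Q k) - (K2 + η * N)) - d * (Kv * N)) =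
        g8 * ∑ k : Fin s, ∑ Q ∈ univ.filter (fun Q => ∃ g ∈ σ.Gd Q, g.1 = k),
          Pr om wt R (σ.kd Q) (GW j Q k)
          - g8 * (s * K2 + s * (η * N)) - s * (d * (Kv * N)) := by
      rw [sum_sub_distrib, ← mul_sum, sum_sub_distrib]
      simp only [sum_const, card_univ, Fintype.card_fin, nsmul_eq_mul]
      ring
    rw [e3, e2]
    have e5 : g8 * (s * K2 + s * (η * N)) ≤ δ / 2 * N + s * (η * N) := by
      have f1 : 0 ≤ s * K2 + s * (η * N) := by positivity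
      calc g8 * (s * K2 + s * (η * N)) ≤ 1 * (s * K2 + s * (η * N)) :=
            mul_le_mul_of_nonneg_right hg81 f1
        _ ≤ δ / 2 * N + s * (η * N) := by linarith
    have e6 : s * (d * (Kv * N)) ≤ δ / 2 * N := by
      have f1 : d ≤ δ / (2 * ((s : ℝ) + 1) * Kv) := min_le_right _ _
      rw [le_div_iff₀ (by positivity)] at f1
      have f2 : s * (d * Kv) ≤ δ / 2 := by
        have f3 : 0 ≤ d * Kv := by positivity
        have f4 : d * (2 * ((s : ℝ) + 1) * Kv) = 2 * (s * (d * Kv)) + 2 * (d * Kv) := by ring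
        rw [f4] at f1
        linarith
      calc s * (d * (Kv * N)) = (s * (d * Kv)) * N := by ring
        _ ≤ δ / 2 * N := mul_le_mul_of_nonneg_right f2 hN0
    have e7 : (s * η + δ) * N = s * (η * N) + δ * N := by ring
    rw [e7]
    linarith

end Pool.Agent.AME
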