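import Pool.Agent.AME.Prob
import Pool.Agent.AMA.ModP

/-!
# General parts theorem: values of forms modulo `p`

Adaptation of `AMA/Point.lean` and `AMA/ModP.lean` (`AMA.val_update`, `AMA.val_update_of_notMem`,
`AMA.exists_val_eq` can be used).
-/

set_option autoImplicit false
set_option linter.unusedSectionVars false

namespace Pool.Agent.AME

open Finset
open Pool.Agent.AMB (pE)
open Pool.Agent.AMA (Frm val HE HV lb)

variable {K Md : Type} [Fintype Md] {s : ℕ} {om : Md → ℝ} {wt : K → Md → ℕ → ℝ} {R p : ℕ} {θ : ℝ}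
  {o : Fin s → Option K}

private theorem Point_exists_diff {A B : Finset (Fin s)} (h : A ≠ B) :
    (∃ i, i ∈ A ∧ i ∉ B) ∨ ∃ i, i ∈ B ∧ i ∉ A := by
  by_contra hcon
  push Not at hcon
  exact h (subset_antisymm hcon.1 hcon.2)

private theorem Point_det (H : LawOK om wt R θ) (md : Md) (φ : Frm s) (i : Fin s) (hi : i ∈ φ.1)
    (hk : o i ≠ none) (c : ℕ) : Prm wt R md o (fun x => val φ x = c) ≤ θ := by
  refine Prm_det H md i hk _ ?_
  intro x y z h1 h2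
  rw [AMA.val_update hi] at h1 h2
  omega

theorem Pr_val_mod_le (H : LawOK om wt R θ) (hp : s * R < p) (hR : R < p) (φ : Frm s)
    (hact : ∀ i ∈ φ.1, o i ≠ none) (hne : φ.1.Nonempty) (a : ℕ) :
    Pr om wt R o (fun x => val φ x % p = a) ≤ θ := by
  obtain ⟨b, hb⟩ := AMA.exists_val_eq hp φ a
  obtain ⟨i, hi⟩ := hne
  refine (Pr_mono H hb).trans (Pr_le_of_Prm_le H fun md => ?_)
  exact Point_det H md φ i hi (hact i hi) b

private theorem Point_coinc (H : LawOK om wt R θ) (hp : R < p) (φ ψ : Frm s)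
    (hφ : ∀ i ∈ φ.1, o i ≠ none) (i : Fin s) (hi : i ∈ φ.1) (hi' : i ∉ ψ.1) (a b : ℕ) :
    Pr om wt R o (fun x => (val φ x + a) % p = (val ψ x + b) % p) ≤ θ := by
  have h1 : Pr om wt R o (fun x => (val φ x + a) % p = (val ψ x + b) % p) ≤
      Pr om wt R o (fun x => (val φ x + a) % p = (val ψ x + b) % p ∧ x i ≤ R) :=
    Pr_mono H (fun x hx hA => ⟨hA, hx i⟩)
  refine h1.trans (Pr_le_of_Prm_le H fun md => ?_)
  refine Prm_det H md i (hφ i hi) _ ?_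
  rintro x y z ⟨hy, hyR⟩ ⟨hz, hzR⟩
  rw [Function.update_self] at hyR hzR
  rw [AMA.val_update hi, AMA.val_update_of_notMem hi'] at hy hz
  have h3 : (φ.2 + ∑ j ∈ φ.1.erase i, x j + y + a) % p =
      (φ.2 + ∑ j ∈ φ.1.erase i, x j + z + a) % p := hy.trans hz.symm
  have h4 : φ.2 + ∑ j ∈ φ.1.erase i, x j + y + a ≡
      φ.2 + ∑ j ∈ φ.1.erase i, x j + z + a [MOD p] := h3
  have h5 := Nat.ModEq.eq_of_abs_lt h4 (by
    rw [abs_lt]
    constructor <;> omega)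
  omega

theorem Pr_coinc_mod_le (H : LawOK om wt R θ) (hp : s * R < p) (hR : R < p) (φ ψ : Frm s)
    (hφ : ∀ i ∈ φ.1, o i ≠ none) (hψ : ∀ i ∈ ψ.1, o i ≠ none) (hne : φ.1 ≠ ψ.1) (a b : ℕ) :
    Pr om wt R o (fun x => (val φ x + a) % p = (val ψ x + b) % p) ≤ θ := by
  rcases Point_exists_diff hne with ⟨i, hi, hi'⟩ | ⟨i, hi, hi'⟩
  · exact Point_coinc H hR φ ψ hφ i hi hi' a b
  · refine le_trans (Pr_mono H ?_) (Point_coinc H hR ψ φ hψ i hi hi' b a)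
    intro x _ hx
    exact hx.symm

theorem Pr_two_mod_le (H : LawOK om wt R θ) (hp : s * R < p) (hR : R < p) (φ ψ : Frm s)
    (hφ : ∀ i ∈ φ.1, o i ≠ none) (hψ : ∀ i ∈ ψ.1, o i ≠ none) (hφ1 : φ.1.Nonempty)
    (hψ1 : ψ.1.Nonempty) (hne : φ.1 ≠ ψ.1) (a b : ℕ) :
    Pr om wt R o (fun x => val φ x % p = a ∧ val ψ x % p = b) ≤ θ ^ 2 := by
  obtain ⟨c, hc⟩ := AMA.exists_val_eq hp φ a
  obtain ⟨d, hd⟩ := AMA.exists_val_eq hp ψ b
  refine (Pr_mono H (B := fun x => val φ x = c ∧ val ψ x = d)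
    (fun x hx h => ⟨hc x hx h.1, hd x hx h.2⟩)).trans (Pr_le_of_Prm_le H fun md => ?_)
  have key : ∀ (φ ψ : Frm s) (hφ : ∀ i ∈ φ.1, o i ≠ none) (hψ : ∀ i ∈ ψ.1, o i ≠ none)
      (hψ1 : ψ.1.Nonempty) (j : Fin s) (hj1 : j ∈ φ.1) (hj2 : j ∉ ψ.1) (c d : ℕ),
      Prm wt R md o (fun x => val φ x = c ∧ val ψ x = d) ≤ θ ^ 2 := by
    intro φ ψ hφ hψ hψ1 j hj1 hj2 c d
    obtain ⟨i, hi⟩ := hψ1
    obtain ⟨k, hk⟩ := Option.ne_none_iff_exists'.1 (hφ j hj1)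
    refine (Prm_det_and H md j (hφ j hj1) _ _ ?_ ?_).trans ?_
    · intro x y z h1 h2
      rw [AMA.val_update hj1] at h1 h2
      omega
    · intro x y
      rw [AMA.val_update_of_notMem hj2]
    · rw [pow_two]
      exact mul_le_mul_of_nonneg_left (Point_det H md ψ i hi (hψ i hi) d) (theta_nonneg H k md)
  rcases Point_exists_diff hne with ⟨j, hj1, hj2⟩ | ⟨j, hj1, hj2⟩
  · exact key φ ψ hφ hψ hψ1 j hj1 hj2 c d
  · refine (Prm_mono H md fun x _ hx => ⟨hx.2, hx.1⟩).trans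
      (key ψ φ hψ hφ hφ1 j hj1 hj2 d c)

end Pool.Agent.AME
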