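import Pool.Agent.AME.Defs

/-!
# General parts theorem: probabilities

Adaptation of `AMA/Prob.lean`.
-/

set_option autoImplicit false
set_option linter.unusedSectionVars false

namespace Pool.Agent.AME

open Finset
open Pool.Agent.AMB (pE)
open Pool.Agent.AMA (Frm val HE HV lb)

variable {K Md : Type} [Fintype Md] {s : ℕ} {om : Md → ℝ} {wt : K → Md → ℕ → ℝ} {R : ℕ} {θ : ℝ}
  {o : Fin s → Option K}

theorem wl_nonneg (H : LawOK om wt R θ) (md : Md) (k : Option K) (y : Fin (R + 1)) :
    0 ≤ wl wt R md k y := by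
  cases k with
  | none =>
    simp only [wl]
    split_ifs <;> norm_num
  | some k => exact H.wt_nn k md _

theorem wl_sum (H : LawOK om wt R θ) (md : Md) (k : Option K) : ∑ y, wl wt R md k y = 1 := by
  cases k with
  | none =>
    have : ∀ y : Fin (R + 1), wl wt R md none y = if y = 0 then 1 else 0 := by
      intro y
      simp only [wl]
      congr 1
      rw [Fin.ext_iff]
      rfl
    rw [sum_congr rfl fun y _ => this y, sum_ite_eq' univ (0 : Fin (R + 1)), if_pos (mem_univ _)]
  | some k => exact H.wt_sum k md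

theorem wl_le (H : LawOK om wt R θ) (md : Md) (k : K) (y : Fin (R + 1)) :
    wl wt R md (some k) y ≤ θ := by
  exact H.wt_le k md _

theorem theta_nonneg (H : LawOK om wt R θ) (k : K) (md : Md) : 0 ≤ θ :=
  (H.wt_nn k md 0).trans (H.wt_le k md 0)

theorem pr_nonneg (H : LawOK om wt R θ) (x : Fin s → Fin (R + 1)) : 0 ≤ pr om wt R o x := by
  unfold pr
  exact sum_nonneg fun md _ => mul_nonneg (H.om_nn md) (prod_nonneg fun i _ => wl_nonneg H md _ _)

/-- labels of positive probability: one mode for all slots -/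
theorem pos_of_pr_pos (H : LawOK om wt R θ) (x : Fin s → Fin (R + 1)) (hx : 0 < pr om wt R o x) :
    ∃ md, 0 < om md ∧ (∀ i k, o i = some k → 0 < wt k md (x i : ℕ)) ∧
      ∀ i, o i = none → (x i : ℕ) = 0 := by
  unfold pr at hx
  obtain ⟨md, _, hmd⟩ : ∃ md ∈ (univ : Finset Md), 0 < om md * ∏ i, wl wt R md (o i) (x i) := by
    by_contra hcon
    push Not at hcon
    exact absurd hx (not_lt.2 (sum_nonpos hcon))
  have hom : 0 < om md := by
    rcases (H.om_nn md).lt_or_eq with h1 | h1
    · exact h1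
    · rw [← h1, zero_mul] at hmd
      exact absurd hmd (lt_irrefl _)
  have hprod : ∏ i, wl wt R md (o i) (x i) ≠ 0 := by
    intro h1
    rw [h1, mul_zero] at hmd
    exact absurd hmd (lt_irrefl _)
  have hfac : ∀ i, wl wt R md (o i) (x i) ≠ 0 := fun i =>
    prod_ne_zero_iff.1 hprod i (mem_univ i)
  refine ⟨md, hom, ?_, ?_⟩
  · intro i k hi
    have h1 := hfac i
    rw [hi] at h1
    exact lt_of_le_of_ne (H.wt_nn k md _) (Ne.symm h1)
  · intro i hi
    have h1 := hfac i
    rw [hi] at h1
    simp only [wl] at h1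
    by_contra h2
    exact h1 (if_neg h2)

theorem Pr_eq (A : (Fin s → ℕ) → Prop) : Pr om wt R o A = ∑ md, om md * Prm wt R md o A := by
  classical
  unfold Pr Prm pE
  have : ∀ md : Md, om md * ∑ x : Fin s → Fin (R + 1), (∏ i, wl wt R md (o i) (x i)) *
      (if A (fun i => (x i : ℕ)) then 1 else 0) = ∑ x : Fin s → Fin (R + 1),
        (if A (fun i => (x i : ℕ)) then om md * ∏ i, wl wt R md (o i) (x i) else 0) := by
    intro md
    rw [mul_sum]
    refine sum_congr rfl fun x _ => ?_
    split_ifs
    · ring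
    · ring
  rw [sum_congr rfl fun md _ => this md, sum_comm]
  refine sum_congr rfl fun x _ => ?_
  split_ifs
  · rfl
  · rw [sum_const_zero]

theorem Prm_nonneg (H : LawOK om wt R θ) (md : Md) (A : (Fin s → ℕ) → Prop) :
    0 ≤ Prm wt R md o A := by
  unfold Prm
  refine AMB.pE_nonneg (fun i a => wl_nonneg H md _ _) fun x => ?_
  split_ifs <;> norm_num

theorem Pr_nonneg (H : LawOK om wt R θ) (A : (Fin s → ℕ) → Prop) : 0 ≤ Pr om wt R o A := by
  rw [Pr_eq]
  exact sum_nonneg fun md _ => mul_nonneg (H.om_nn md) (Prm_nonneg H md A)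

/-- it suffices to compare the events for labels at most `R` -/
theorem Prm_mono (H : LawOK om wt R θ) (md : Md) {A B : (Fin s → ℕ) → Prop}
    (hAB : ∀ x, (∀ i, x i ≤ R) → A x → B x) : Prm wt R md o A ≤ Prm wt R md o B := by
  unfold Prm
  refine AMB.pE_mono (fun i a => wl_nonneg H md _ _) fun x => ?_
  by_cases h1 : A (fun i => (x i : ℕ))
  · rw [if_pos h1, if_pos (hAB _ (fun i => Nat.lt_succ_iff.1 (x i).2) h1)]
  · rw [if_neg h1]
    split_ifs <;> norm_num

theorem Pr_mono (H : LawOK om wt R θ) {A B : (Fin s → ℕ) → Prop}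
    (hAB : ∀ x, (∀ i, x i ≤ R) → A x → B x) : Pr om wt R o A ≤ Pr om wt R o B := by
  rw [Pr_eq, Pr_eq]
  exact sum_le_sum fun md _ => mul_le_mul_of_nonneg_left (Prm_mono H md hAB) (H.om_nn md)

theorem Prm_or_le (H : LawOK om wt R θ) (md : Md) (A B : (Fin s → ℕ) → Prop) :
    Prm wt R md o (fun x => A x ∨ B x) ≤ Prm wt R md o A + Prm wt R md o B := by
  unfold Prm
  rw [← AMB.pE_add]
  refine AMB.pE_mono (fun i a => wl_nonneg H md _ _) fun x => ?_
  by_cases h1 : A (fun i => (x i : ℕ)) <;> by_cases h2 : B (fun i => (x i : ℕ)) <;>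
    simp [h1, h2]

theorem Pr_or_le (H : LawOK om wt R θ) (A B : (Fin s → ℕ) → Prop) :
    Pr om wt R o (fun x => A x ∨ B x) ≤ Pr om wt R o A + Pr om wt R o B := by
  rw [Pr_eq, Pr_eq, Pr_eq, ← sum_add_distrib]
  refine sum_le_sum fun md _ => ?_
  rw [← mul_add]
  exact mul_le_mul_of_nonneg_left (Prm_or_le H md A B) (H.om_nn md)

theorem Pr_exists_le (H : LawOK om wt R θ) {ι : Type*} (F : Finset ι)
    (A : ι → (Fin s → ℕ) → Prop) :
    Pr om wt R o (fun x => ∃ u ∈ F, A u x) ≤ ∑ u ∈ F, Pr om wt R o (A u) := by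
  classical
  induction F using Finset.induction_on with
  | empty =>
    rw [sum_empty]
    unfold Pr
    refine le_of_eq (sum_eq_zero fun x _ => ?_)
    rw [if_neg]
    rintro ⟨u, hu, _⟩
    exact absurd hu (notMem_empty u)
  | insert a F ha ih =>
    rw [sum_insert ha]
    refine le_trans (Pr_mono H (B := fun x => A a x ∨ ∃ u ∈ F, A u x) ?_)
      ((Pr_or_le H _ _).trans (add_le_add le_rfl ih))
    rintro x _ ⟨u, hu, hx⟩
    rcases mem_insert.1 hu with rfl | hu
    · exact Or.inl hx
    · exact Or.inr ⟨u, hu, hx⟩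

theorem Prm_true (H : LawOK om wt R θ) (md : Md) : Prm wt R md o (fun _ => True) = 1 := by
  unfold Prm
  have h2 := AMB.pE_const (w := fun i => wl wt R md (o i)) (fun i => wl_sum H md (o i)) 1
  simpa using h2

theorem Pr_true (H : LawOK om wt R θ) : Pr om wt R o (fun _ => True) = 1 := by
  rw [Pr_eq, sum_congr rfl fun md _ => by rw [Prm_true H md, mul_one]]
  exact H.om_sum

theorem Prm_le_one (H : LawOK om wt R θ) (md : Md) (A : (Fin s → ℕ) → Prop) :
    Prm wt R md o A ≤ 1 := by
  rw [← Prm_true (o := o) H md]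
  exact Prm_mono H md fun _ _ _ => trivial

theorem Pr_le_one (H : LawOK om wt R θ) (A : (Fin s → ℕ) → Prop) : Pr om wt R o A ≤ 1 := by
  rw [← Pr_true (o := o) H]
  exact Pr_mono H fun _ _ _ => trivial

theorem Pr_not (H : LawOK om wt R θ) (A : (Fin s → ℕ) → Prop) :
    Pr om wt R o (fun x => ¬ A x) = 1 - Pr om wt R o A := by
  rw [← Pr_true (o := o) H]
  unfold Pr
  rw [← sum_sub_distrib]
  refine sum_congr rfl fun x _ => ?_
  by_cases h1 : A (fun i => (x i : ℕ)) <;> simp [h1]

theorem Prm_not (H : LawOK om wt R θ) (md : Md) (A : (Fin s → ℕ) → Prop) :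
    Prm wt R md o (fun x => ¬ A x) = 1 - Prm wt R md o A := by
  rw [← Prm_true (o := o) H md]
  unfold Prm
  rw [← AMB.pE_sub]
  congr 1
  funext x
  by_cases h1 : A (fun i => (x i : ℕ)) <;> simp [h1]

theorem Pr_le_of_Prm_le (H : LawOK om wt R θ) {A : (Fin s → ℕ) → Prop} {M : ℝ}
    (h : ∀ md : Md, Prm wt R md o A ≤ M) : Pr om wt R o A ≤ M := by
  rw [Pr_eq]
  calc ∑ md, om md * Prm wt R md o A ≤ ∑ md, om md * M :=
        sum_le_sum fun md _ => mul_le_mul_of_nonneg_left (h md) (H.om_nn md)
    _ = M := by rw [← sum_mul, H.om_sum, one_mul]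

/-- If the event `A` determines the label of the slot `i` (given the others) with an atom bound `t` and `B` does
not depend on this label. Adaptation of `AMA.Prm_det_and`. -/
theorem Prm_det_and' (H : LawOK om wt R θ) (md : Md) (i : Fin s) (k : K) (hi : o i = some k)
    {t : ℝ} (ht : ∀ a, wt k md a ≤ t) (A B : (Fin s → ℕ) → Prop)
    (hA : ∀ x y z, A (Function.update x i y) → A (Function.update x i z) → y = z)
    (hB : ∀ x y, B (Function.update x i y) ↔ B x) :
    Prm wt R md o (fun x => A x ∧ B x) ≤ t * Prm wt R md o B := by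
  classical
  have hupd : ∀ (x : Fin s → Fin (R + 1)) (a : Fin (R + 1)),
      (fun j => ((Function.update x i a j : Fin (R + 1)) : ℕ)) =
        Function.update (fun j => (x j : ℕ)) i (a : ℕ) := by
    intro x a
    funext j
    by_cases hj : j = i
    · subst hj
      simp
    · simp [hj]
  set G : Fin (R + 1) → (Fin s → Fin (R + 1)) → ℝ := fun a x =>
    if A (Function.update (fun j => (x j : ℕ)) i (a : ℕ)) ∧ B (fun j => (x j : ℕ)) then 1 else 0
    with hG
  have e1 : Prm wt R md o (fun x => A x ∧ B x) =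
      pE (fun i => wl wt R md (o i)) (fun x => G (x i) x) := by
    unfold Prm
    congr 1
    funext x
    have : Function.update (fun j => (x j : ℕ)) i (x i : ℕ) = fun j => (x j : ℕ) :=
      Function.update_eq_self i (fun j => (x j : ℕ))
    rw [hG]
    simp only [this]
    congr
  have e2 := AMB.pE_coord (w := fun i => wl wt R md (o i)) (fun i => wl_sum H md (o i)) i G
    (by
      intro a y b
      rw [hG]
      simp only [hupd, Function.update_idem]
      simp only [hB])
  rw [e1, e2]
  have e3 : ∑ a, wl wt R md (o i) a * pE (fun i => wl wt R md (o i)) (G a) =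
      pE (fun i => wl wt R md (o i)) (fun x => ∑ a, wl wt R md (o i) a * G a x) := by
    rw [AMB.pE_sum]
    exact sum_congr rfl fun a _ => by rw [AMB.pE_mul_left]
  rw [e3]
  unfold Prm
  rw [← AMB.pE_mul_left]
  refine AMB.pE_mono (fun i a => wl_nonneg H md _ _) fun x => ?_
  have hc0 : 0 ≤ t := (H.wt_nn k md 0).trans (ht 0)
  by_cases hBx : B (fun j => (x j : ℕ))
  · rw [if_pos hBx, mul_one]
    by_cases hex : ∃ a : Fin (R + 1), A (Function.update (fun j => (x j : ℕ)) i (a : ℕ))
    · obtain ⟨a, ha⟩ := hex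
      rw [sum_eq_single a]
      · have h1 : G a x ≤ 1 := by
          rw [hG]
          simp only
          split_ifs <;> norm_num
        have h2 : 0 ≤ G a x := by
          rw [hG]
          simp only
          split_ifs <;> norm_num
        rw [hi]
        calc wl wt R md (some k) a * G a x ≤ t * 1 :=
              mul_le_mul (ht _) h1 h2 hc0
          _ = _ := mul_one _
      · intro b _ hb
        have : G b x = 0 := by
          rw [hG]
          simp only
          rw [if_neg]
          rintro ⟨hb', _⟩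
          exact hb (Fin.ext (hA _ _ _ hb' ha))
        rw [this, mul_zero]
      · intro h1
        exact absurd (mem_univ a) h1
    · refine le_trans (le_of_eq (sum_eq_zero fun a _ => ?_)) hc0
      have : G a x = 0 := by
        rw [hG]
        simp only
        rw [if_neg]
        rintro ⟨ha, _⟩
        exact hex ⟨a, ha⟩
      rw [this, mul_zero]
  · rw [if_neg hBx, mul_zero]
    refine le_of_eq (sum_eq_zero fun a _ => ?_)
    have : G a x = 0 := by
      rw [hG]
      simp only
      rw [if_neg]
      rintro ⟨_, h2⟩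
      exact hBx h2
    rw [this, mul_zero]

theorem Prm_det_and (H : LawOK om wt R θ) (md : Md) (i : Fin s) (hi : o i ≠ none)
    (A B : (Fin s → ℕ) → Prop)
    (hA : ∀ x y z, A (Function.update x i y) → A (Function.update x i z) → y = z)
    (hB : ∀ x y, B (Function.update x i y) ↔ B x) :
    Prm wt R md o (fun x => A x ∧ B x) ≤ θ * Prm wt R md o B := by
  obtain ⟨k, hk⟩ := Option.ne_none_iff_exists'.1 hi
  exact Prm_det_and' H md i k hk (fun a => H.wt_le k md a) A B hA hB

theorem Prm_det (H : LawOK om wt R θ) (md : Md) (i : Fin s) (hi : o i ≠ none)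
    (A : (Fin s → ℕ) → Prop)
    (hA : ∀ x y z, A (Function.update x i y) → A (Function.update x i z) → y = z) :
    Prm wt R md o A ≤ θ := by
  have h1 := Prm_det_and H md i hi A (fun _ => True) hA (fun _ _ => Iff.rfl)
  rw [Prm_true H md, mul_one] at h1
  refine le_trans (Prm_mono H md ?_) h1
  intro x _ hx
  exact ⟨hx, trivial⟩

/-- the law of one slot (`g` an arbitrary event for its label) -/
theorem Prm_one (H : LawOK om wt R θ) (md : Md) (i : Fin s) (k : K) (hi : o i = some k)
    (g : ℕ → Prop) [DecidablePred g] :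
    Prm wt R md o (fun x => g (x i)) = ∑ y : Fin (R + 1), if g (y : ℕ) then wt k md (y : ℕ) else 0 := by
  classical
  set G : Fin (R + 1) → (Fin s → Fin (R + 1)) → ℝ := fun a _ =>
    if g (a : ℕ) then 1 else 0 with hG
  have e1 : Prm wt R md o (fun x => g (x i)) =
      pE (fun i => wl wt R md (o i)) (fun x => G (x i) x) := by
    unfold Prm
    congr 1
    funext x
    rw [hG]
    simp only
    congr
  have e2 := AMB.pE_coord (w := fun i => wl wt R md (o i)) (fun i => wl_sum H md (o i)) i G
    (fun a y b => rfl)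
  rw [e1, e2]
  refine sum_congr rfl fun a _ => ?_
  rw [hG]
  simp only
  rw [AMB.pE_const (fun i => wl_sum H md (o i)), hi]
  simp only [wl]
  by_cases h1 : g (a : ℕ)
  · rw [if_pos h1, if_pos h1, mul_one]
  · rw [if_neg h1, if_neg h1, mul_zero]

end Pool.Agent.AME
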